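import Pool.Agent.Lib.MP_009fd8_agT.Def

/-!
MP_009fd8_ag, p = 3, leaf file: the place q.
-/

namespace Pool.Agent.MP009fd8T

/-- If C_u has a point over a valued field in which u is a unit and the valuation of n is not a
cube in the value group, then u is a cube modulo the maximal ideal.

Proof. Take a point. v(u x^3) and v(u^2 y^3) are cubes, v(n z^3) is 0 or not a cube, the largest
of the three valuations of u x^3, u^2 y^3, n z^3 occurs twice, so v(x)^3 = v(y)^3 > v(n z^3) and
g = -x / y has v(g) = 1 and u - g^3 = (u x^3 + u^2 y^3) / (u y^3) = n z^3 / (u y^3), of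
valuation less than 1. -/
theorem cube_at_q {F : Type*} [Field F] {Γ : Type*} [LinearOrderedCommGroupWithZero Γ]
    (v : Valuation F Γ) (n u : F) (hu : v u = 1) (hn : ¬ ∃ w, v n = w ^ 3)
    (h : HasPoint n u) : ∃ g : F, v g ≤ 1 ∧ v (u - g ^ 3) < 1 := by
  obtain ⟨x, y, z, hne, e⟩ := h
  have hu0 : u ≠ 0 := by
    rintro rfl
    rw [map_zero] at hu
    exact zero_ne_one hu
  have hvx : v (u * x ^ 3) = v x ^ 3 := by rw [map_mul, map_pow, hu, one_mul]
  have hvy : v (u ^ 2 * y ^ 3) = v y ^ 3 := by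
    rw [map_mul, map_pow, map_pow, hu, one_pow, one_mul]
  have key : v (n * z ^ 3) < v x ^ 3 ∧ v y ^ 3 = v x ^ 3 := by
    by_cases hz : z = 0
    · subst hz
      have hx : x ≠ 0 := by
        rintro rfl
        have h1 : u ^ 2 * y ^ 3 = 0 := by linear_combination e
        have hy : y = 0 := by
          rcases mul_eq_zero.1 h1 with h2 | h2
          · exact absurd h2 (pow_ne_zero 2 hu0)
          · exact (pow_eq_zero_iff three_ne_zero).1 h2
        simp [hy] at hne
      have h1 : u ^ 2 * y ^ 3 = -(u * x ^ 3) := by linear_combination e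
      refine ⟨?_, ?_⟩
      · have h2 : n * (0 : F) ^ 3 = 0 := by ring
        rw [h2, map_zero]
        exact zero_lt_iff.2 (pow_ne_zero 3 ((Valuation.ne_zero_iff v).2 hx))
      · rw [← hvy, ← hvx, h1, Valuation.map_neg]
    · have hvz : v z ≠ 0 := (Valuation.ne_zero_iff v).2 hz
      have hnc : ∀ w : Γ, v (n * z ^ 3) ≠ w ^ 3 := by
        intro w hw
        apply hn
        refine ⟨w / v z, ?_⟩
        rw [div_pow, eq_div_iff (pow_ne_zero 3 hvz), ← hw, map_mul, map_pow]
      have h1 : u ^ 2 * y ^ 3 = n * z ^ 3 - u * x ^ 3 := by linear_combination e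
      rcases lt_trichotomy (v (u * x ^ 3)) (v (n * z ^ 3)) with hlt | heq | hgt
      · exfalso
        apply hnc (v y)
        rw [← hvy, h1]
        exact (Valuation.map_sub_eq_of_lt_left v hlt).symm
      · exact absurd (heq.symm.trans hvx) (hnc (v x))
      · refine ⟨by rw [← hvx]; exact hgt, ?_⟩
        rw [← hvy, ← hvx, h1]
        exact Valuation.map_sub_eq_of_lt_right v hgt
  obtain ⟨k1, k2⟩ := key
  have hx3 : v x ^ 3 ≠ 0 := ne_of_gt (lt_of_le_of_lt zero_le k1)
  have hy : y ≠ 0 := by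
    rintro rfl
    apply hx3
    rw [← k2, map_zero]
    exact zero_pow three_ne_zero
  have hy3 : v y ^ 3 ≠ 0 := by rw [k2]; exact hx3
  refine ⟨-x / y, ?_, ?_⟩
  · have h3 : (v (-x / y)) ^ 3 = 1 := by
      rw [map_div₀, Valuation.map_neg, div_pow, k2]
      exact div_self hx3
    exact le_of_eq ((pow_eq_one_iff_of_nonneg zero_le three_ne_zero).1 h3)
  · have h4 : u - (-x / y) ^ 3 = n * z ^ 3 / (u * y ^ 3) := by
      rw [eq_div_iff (mul_ne_zero hu0 (pow_ne_zero 3 hy)), ← e, div_pow]
      field_simp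
      ring
    rw [h4, map_div₀, map_mul v u, hu, one_mul, map_pow v y,
      div_lt_one₀ (zero_lt_iff.2 hy3), k2]
    exact k1

end Pool.Agent.MP009fd8T
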