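import Mathlib

/-!
MP_009fd8_ag, p = 3: the places above 3 (ring form).
-/

namespace Pool.Agent.MP009fd8T

private theorem lam_three {O : Type*} [CommRing O] {π : O} (hπ : π ^ 2 = -3) : π ∣ (3 : O) :=
  ⟨-π, by linear_combination hπ⟩

/-- The normalised form of the local computation above 3. -/
theorem lambda_norm {O : Type*} [CommRing O] [IsDomain O] (π : O) (hp : Prime π)
    (hπ : π ^ 2 = -3) (s e f X Y Z : O)
    (hXYZ : ¬ (π ∣ X ∧ π ∣ Y ∧ π ∣ Z))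
    (h : (1 + π * s) * X ^ 3 + (1 + π * s) ^ 2 * Y ^ 3 = (1 + 3 * e + 3 * π * f) * Z ^ 3) :
    π ∣ s ∨ π ∣ s ^ 2 - (1 + e) := by
  have h3 := lam_three hπ
  have hπ0 : π ≠ 0 := hp.ne_zero
  -- Z = X + Y modulo π
  have h1 : π ∣ (X + Y - Z) ^ 3 := by
    have h11 : (X + Y - Z) ^ 3 = 3 * ((X + Y) * (Y - Z) * (X - Z)) +
        π * (-(s * X ^ 3) - 2 * s * Y ^ 3 - π * s ^ 2 * Y ^ 3) +
        3 * ((e + π * f) * Z ^ 3) := by
      linear_combination h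
    rw [h11]
    exact dvd_add (dvd_add (dvd_mul_of_dvd_left h3 _) (dvd_mul_right _ _))
      (dvd_mul_of_dvd_left h3 _)
  obtain ⟨k, hk⟩ := hp.dvd_of_dvd_pow h1
  have hZ : Z = X + Y + π * (-k) := by linear_combination (-1 : O) * hk
  generalize (-k) = k' at hZ
  subst hZ
  clear h1 hk
  by_contra hsc
  have hs : ¬ π ∣ s := fun h1 => hsc (Or.inl h1)
  have key : π * s * (X ^ 3 - Y ^ 3) + π ^ 2 * (s ^ 2 * Y ^ 3 + X * Y * (X + Y) +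
      e * (X ^ 3 + Y ^ 3)) + π ^ 3 * (-(s * Y ^ 3) - (π * e * (X * Y * (X + Y)) -
      f * (X ^ 3 + Y ^ 3) + π ^ 2 * f * (X * Y * (X + Y)) + (1 - π ^ 2 * e - π ^ 3 * f) *
      (-((X + Y) ^ 2 * k') - π * (X + Y) * k' ^ 2 + k' ^ 3))) = 0 := by
    linear_combination h - (π^5*X*k'^2*f + π^5*Y*k'^2*f + π^4*X^2*k'*f + 2*π^4*X*Y*k'*f
      + π^4*X*k'^2*e + π^4*Y^2*k'*f + π^4*Y*k'^2*e - π^4*k'^3*f + π^3*X^2*Y*f + π^3*X^2*k'*e
      + π^3*X*Y^2*f + 2*π^3*X*Y*k'*e - 3*π^3*X*k'^2*f + π^3*Y^2*k'*e - 3*π^3*Y*k'^2*f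
      - π^3*k'^3*e + π^2*X^2*Y*e - 3*π^2*X^2*k'*f + π^2*X*Y^2*e - 6*π^2*X*Y*k'*f
      - 3*π^2*X*k'^2*e - π^2*X*k'^2 - 3*π^2*Y^2*k'*f - 3*π^2*Y*k'^2*e - π^2*Y*k'^2 + π*s*Y^3
      - π*X^3*f - 3*π*X^2*Y*f - 3*π*X^2*k'*e - π*X^2*k' - 3*π*X*Y^2*f - 6*π*X*Y*k'*e
      - 2*π*X*Y*k' - π*Y^3*f - 3*π*Y^2*k'*e - π*Y^2*k' - X^3*e - 3*X^2*Y*e - X^2*Y
      - 3*X*Y^2*e - X*Y^2 - Y^3*e) * hπ
  generalize hR : (-(s * Y ^ 3) - (π * e * (X * Y * (X + Y)) -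
      f * (X ^ 3 + Y ^ 3) + π ^ 2 * f * (X * Y * (X + Y)) + (1 - π ^ 2 * e - π ^ 3 * f) *
      (-((X + Y) ^ 2 * k') - π * (X + Y) * k' ^ 2 + k' ^ 3))) = R at key
  clear hR
  -- Y = X modulo π
  have h2 : s * (X ^ 3 - Y ^ 3) = π * (-(s ^ 2 * Y ^ 3 + X * Y * (X + Y) +
      e * (X ^ 3 + Y ^ 3)) - π * R) := by
    apply mul_left_cancel₀ hπ0
    linear_combination key
  have h4 : π ∣ X ^ 3 - Y ^ 3 := by
    rcases hp.dvd_or_dvd (Dvd.intro _ h2.symm) with h5 | h5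
    · exact absurd h5 hs
    · exact h5
  have h5 : π ∣ (Y - X) ^ 3 := by
    have h51 : (Y - X) ^ 3 = -(X ^ 3 - Y ^ 3) + 3 * (X * Y * (X - Y)) := by ring
    rw [h51]
    exact dvd_add ((dvd_neg).2 h4) (dvd_mul_of_dvd_left h3 _)
  obtain ⟨m, hm⟩ := hp.dvd_of_dvd_pow h5
  have hY : Y = X + π * m := by linear_combination hm
  have h6 : X ^ 3 - Y ^ 3 = π ^ 3 * (X ^ 2 * m + π * X * m ^ 2 - m ^ 3) := by
    rw [hY]
    linear_combination (-(X ^ 2 * π * m) - X * π ^ 2 * m ^ 2) * hπ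
  have h7 : π ∣ s ^ 2 * Y ^ 3 + X * Y * (X + Y) + e * (X ^ 3 + Y ^ 3) := by
    refine ⟨-(R + π * s * (X ^ 2 * m + π * X * m ^ 2 - m ^ 3)), ?_⟩
    apply mul_left_cancel₀ hπ0
    linear_combination h2 - s * h6
  have h8 : π ∣ X ^ 3 * (s ^ 2 - (1 + e)) := by
    have h81 : X ^ 3 * (s ^ 2 - (1 + e)) =
        (s ^ 2 * Y ^ 3 + X * Y * (X + Y) + e * (X ^ 3 + Y ^ 3)) -
        (Y - X) * (s ^ 2 * (Y ^ 2 + X * Y + X ^ 2) + X * (Y + 2 * X) +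
          e * (Y ^ 2 + X * Y + X ^ 2)) - 3 * (X ^ 3 * (1 + e)) := by ring
    rw [h81]
    refine dvd_sub (dvd_sub h7 (dvd_mul_of_dvd_left ⟨m, hm⟩ _)) (dvd_mul_of_dvd_left h3 _)
  rcases hp.dvd_or_dvd h8 with h9 | h9
  · have hX := hp.dvd_of_dvd_pow h9
    have hY' : π ∣ Y := by
      rw [hY]
      exact dvd_add hX (dvd_mul_right _ _)
    exact hXYZ ⟨hX, hY', dvd_add (dvd_add hX hY') (dvd_mul_right _ _)⟩
  · exact hsc (Or.inr h9)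

/-- The places above 3: if u = alpha^3 + pi t is a unit and the covering has a primitive point
then t = 0 or t^2 = (1 + e) alpha^6 modulo pi. -/
theorem lambda_ring {O : Type*} [CommRing O] [IsDomain O] (π : O) (hp : Prime π)
    (hπ : π ^ 2 = -3) (hun : ∀ x : O, ¬ π ∣ x → IsUnit x)
    (n u α t c e x y z : O) (hu : ¬ π ∣ u) (hα : u = α ^ 3 + π * t) (hc : ¬ π ∣ c)
    (hne : 3 * π ∣ n - c ^ 3 * (1 + 3 * e)) (hxyz : ¬ (π ∣ x ∧ π ∣ y ∧ π ∣ z))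
    (h : u * x ^ 3 + u ^ 2 * y ^ 3 = n * z ^ 3) : π ∣ t ∨ π ∣ t ^ 2 - (1 + e) * α ^ 6 := by
  have hα0 : ¬ π ∣ α := by
    intro h1
    apply hu
    rw [hα]
    exact dvd_add (dvd_pow h1 (by norm_num)) (dvd_mul_right _ _)
  obtain ⟨α', hα'⟩ := (hun α hα0).exists_right_inv
  obtain ⟨c', hc'⟩ := (hun c hc).exists_right_inv
  obtain ⟨f, hf⟩ := hne
  have hu1 : u = α ^ 3 * (1 + π * (α' ^ 3 * t)) := by
    have h2 : (α * α') ^ 3 = 1 := by rw [hα', one_pow]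
    linear_combination hα - π * t * h2
  have hn1 : n = c ^ 3 * (1 + 3 * e + 3 * π * (c' ^ 3 * f)) := by
    have h2 : (c * c') ^ 3 = 1 := by rw [hc', one_pow]
    linear_combination hf - 3 * π * f * h2
  have hs := lambda_norm π hp hπ (α' ^ 3 * t) e (c' ^ 3 * f) (α * x) (α ^ 2 * y) (c * z)
    ?_ ?_
  · rcases hs with hs | hs
    · left
      have h2 : (α * α') ^ 3 = 1 := by rw [hα', one_pow]
      have h3 : t = α ^ 3 * (α' ^ 3 * t) := by linear_combination (-t) * h2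
      rw [h3]
      exact dvd_mul_of_dvd_right hs _
    · right
      have h2 : (α * α') ^ 6 = 1 := by rw [hα', one_pow]
      have h3 : t ^ 2 - (1 + e) * α ^ 6 = α ^ 6 * ((α' ^ 3 * t) ^ 2 - (1 + e)) := by
        linear_combination (-t ^ 2) * h2
      rw [h3]
      exact dvd_mul_of_dvd_right hs _
  · rintro ⟨h1, h2, h3⟩
    apply hxyz
    refine ⟨?_, ?_, ?_⟩
    · exact (hp.dvd_or_dvd h1).resolve_left hα0
    · exact (hp.dvd_or_dvd h2).resolve_left fun h4 => hα0 (hp.dvd_of_dvd_pow h4)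
    · exact (hp.dvd_or_dvd h3).resolve_left hc
  · rw [hu1, hn1] at h
    linear_combination h

end Pool.Agent.MP009fd8T
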