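import Pool.Agent.Lib.MP_009fd8_agT.Def
import Pool.Agent.Lib.MP_009fd8_agT.Lambda
import Pool.Agent.Lib.MP_009fd8_ag.Places
import Pool.Agent.Lib.MP_009fd8_ag.Approx

/-!
MP_009fd8_ag, p = 3: the places above 3.
-/

namespace Pool.Agent.MP009fd8T

open IsDedekindDomain NumberField WithZero Pool.Agent.MP009fd8

section local_ring

variable {K : Type*} [Field K] [NumberField K] (v : HeightOneSpectrum (𝓞 K))

/-- Divisibility by a uniformiser in the ring of integers of the completion. -/
theorem at3_dvd_iff {p x : v.adicCompletionIntegers K}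
    (hp : Valued.v (p : v.adicCompletion K) = exp (-1 : ℤ)) :
    p ∣ x ↔ Valued.v (x : v.adicCompletion K) < 1 := by
  have hp0 : (p : v.adicCompletion K) ≠ 0 := by
    intro h
    rw [h, map_zero] at hp
    exact exp_ne_zero hp.symm
  constructor
  · rintro ⟨y, rfl⟩
    have hy : Valued.v (y : v.adicCompletion K) ≤ 1 := y.2
    have h1 : ((p * y : v.adicCompletionIntegers K) : v.adicCompletion K) = p * y := rfl
    rw [h1, map_mul, hp]
    calc exp (-1 : ℤ) * Valued.v (y : v.adicCompletion K) ≤ exp (-1 : ℤ) * 1 := by gcongr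
      _ < 1 := by
        rw [mul_one, ← exp_zero, exp_lt_exp]
        norm_num
  · intro h
    have h1 := le_of_lt_one h
    refine ⟨⟨(x : v.adicCompletion K) / p, ?_⟩, ?_⟩
    · rw [HeightOneSpectrum.mem_adicCompletionIntegers, map_div₀, hp]
      exact div_le_one_of_le₀ h1 zero_le
    · apply Subtype.ext
      change (x : v.adicCompletion K) = p * ((x : v.adicCompletion K) / p)
      field_simp

/-- A uniformiser is prime. -/
theorem at3_prime {p : v.adicCompletionIntegers K}
    (hp : Valued.v (p : v.adicCompletion K) = exp (-1 : ℤ)) : Prime p := by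
  refine ⟨?_, ?_, ?_⟩
  · rintro rfl
    have h1 : ((0 : v.adicCompletionIntegers K) : v.adicCompletion K) = 0 := rfl
    rw [h1, map_zero] at hp
    exact exp_ne_zero hp.symm
  · intro h
    have h1 : p ∣ 1 := h.dvd
    rw [at3_dvd_iff v hp] at h1
    have h2 : ((1 : v.adicCompletionIntegers K) : v.adicCompletion K) = 1 := rfl
    rw [h2, map_one] at h1
    exact lt_irrefl _ h1
  · intro a b h
    rw [at3_dvd_iff v hp] at h ⊢
    rw [at3_dvd_iff v hp]
    by_contra hcon
    rw [not_or, not_lt, not_lt] at hcon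
    have h2 : ((a * b : v.adicCompletionIntegers K) : v.adicCompletion K) = a * b := rfl
    rw [h2, map_mul] at h
    exact absurd h (not_lt.2 (one_le_mul hcon.1 hcon.2))

/-- Elements not divisible by a uniformiser are units. -/
theorem at3_unit {p x : v.adicCompletionIntegers K}
    (hp : Valued.v (p : v.adicCompletion K) = exp (-1 : ℤ)) (hx : ¬ p ∣ x) : IsUnit x := by
  rw [at3_dvd_iff v hp, not_lt] at hx
  have h1 : Valued.v (x : v.adicCompletion K) = 1 := le_antisymm x.2 hx
  have hx0 : (x : v.adicCompletion K) ≠ 0 := by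
    intro h
    rw [h, map_zero] at h1
    exact zero_ne_one h1
  refine IsUnit.of_mul_eq_one ⟨(x : v.adicCompletion K)⁻¹, ?_⟩ ?_
  · rw [HeightOneSpectrum.mem_adicCompletionIntegers, map_inv₀, h1, inv_one]
  · apply Subtype.ext
    change (x : v.adicCompletion K) * (x : v.adicCompletion K)⁻¹ = 1
    exact mul_inv_cancel₀ hx0

/-- Every element of the ring of integers is a cube modulo a place above 3. -/
theorem at3_frob (h3 : (3 : 𝓞 K) ∈ v.asIdeal) (a : 𝓞 K) :
    ∃ α : 𝓞 K, a - α ^ 3 ∈ v.asIdeal := by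
  have hmax : v.asIdeal.IsMaximal := v.isMaximal
  let _ : Field (𝓞 K ⧸ v.asIdeal) := Ideal.Quotient.field _
  have hfin : Finite (𝓞 K ⧸ v.asIdeal) := v.asIdeal.finiteQuotientOfFreeOfNeBot v.ne_bot
  have hz : (3 : 𝓞 K ⧸ v.asIdeal) = 0 := by
    have h1 : Ideal.Quotient.mk v.asIdeal 3 = 0 := Ideal.Quotient.eq_zero_iff_mem.2 h3
    rw [map_ofNat] at h1
    exact h1
  have hchar : CharP (𝓞 K ⧸ v.asIdeal) 3 := by
    rw [CharP.charP_iff_prime_eq_zero Nat.prime_three]
    exact_mod_cast hz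
  have hexp : ExpChar (𝓞 K ⧸ v.asIdeal) 3 := ExpChar.prime Nat.prime_three
  have hinj : Function.Injective (frobenius (𝓞 K ⧸ v.asIdeal) 3) := frobenius_inj _ 3
  obtain ⟨b, hb⟩ := (Finite.injective_iff_surjective.1 hinj) (Ideal.Quotient.mk v.asIdeal a)
  obtain ⟨α, rfl⟩ := Ideal.Quotient.mk_surjective b
  refine ⟨α, ?_⟩
  rw [← Ideal.Quotient.eq_zero_iff_mem, map_sub, map_pow, sub_eq_zero]
  rw [frobenius_def] at hb
  exact hb.symm

/-- A point can be taken primitive. -/
theorem at3_primitive {F : Type*} [Field F] {Γ : Type*}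
    [LinearOrderedCommGroupWithZero Γ] (w : Valuation F Γ) {n a : F} (h : HasPoint n a) :
    ∃ x y z : F, w x ≤ 1 ∧ w y ≤ 1 ∧ w z ≤ 1 ∧ ¬ (w x < 1 ∧ w y < 1 ∧ w z < 1) ∧
      a * x ^ 3 + a ^ 2 * y ^ 3 = n * z ^ 3 := by
  obtain ⟨x, y, z, h0, h1⟩ := h
  have key : ∀ t : F, t ≠ 0 → w x ≤ w t → w y ≤ w t → w z ≤ w t →
      (w t = w x ∨ w t = w y ∨ w t = w z) →
      ∃ x y z : F, w x ≤ 1 ∧ w y ≤ 1 ∧ w z ≤ 1 ∧ ¬ (w x < 1 ∧ w y < 1 ∧ w z < 1) ∧
      a * x ^ 3 + a ^ 2 * y ^ 3 = n * z ^ 3 := by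
    intro t ht hx hy hz hor
    have hwt : w t ≠ 0 := (Valuation.ne_zero_iff w).2 ht
    refine ⟨x / t, y / t, z / t, ?_, ?_, ?_, ?_, ?_⟩
    · rw [map_div₀]; exact div_le_one_of_le₀ hx zero_le
    · rw [map_div₀]; exact div_le_one_of_le₀ hy zero_le
    · rw [map_div₀]; exact div_le_one_of_le₀ hz zero_le
    · rintro ⟨k1, k2, k3⟩
      rw [map_div₀] at k1 k2 k3
      rcases hor with hor | hor | hor
      · rw [← hor, div_self hwt] at k1; exact lt_irrefl _ k1
      · rw [← hor, div_self hwt] at k2; exact lt_irrefl _ k2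
      · rw [← hor, div_self hwt] at k3; exact lt_irrefl _ k3
    · field_simp
      linear_combination h1
  have hne : w x ≠ 0 ∨ w y ≠ 0 ∨ w z ≠ 0 := by
    rcases h0 with h0 | h0 | h0
    · exact Or.inl ((Valuation.ne_zero_iff w).2 h0)
    · exact Or.inr (Or.inl ((Valuation.ne_zero_iff w).2 h0))
    · exact Or.inr (Or.inr ((Valuation.ne_zero_iff w).2 h0))
  have hpos : ∀ t : F, w x ≤ w t → w y ≤ w t → w z ≤ w t → t ≠ 0 := by
    rintro t hx hy hz rfl
    rw [map_zero] at hx hy hz
    rcases hne with h | h | h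
    · exact h (le_antisymm hx zero_le)
    · exact h (le_antisymm hy zero_le)
    · exact h (le_antisymm hz zero_le)
  rcases le_total (w x) (w y) with hxy | hxy
  · rcases le_total (w y) (w z) with hyz | hyz
    · exact key z (hpos z (hxy.trans hyz) hyz le_rfl) (hxy.trans hyz) hyz le_rfl
        (Or.inr (Or.inr rfl))
    · exact key y (hpos y hxy le_rfl hyz) hxy le_rfl hyz (Or.inr (Or.inl rfl))
  · rcases le_total (w x) (w z) with hxz | hxz
    · exact key z (hpos z hxz (hxy.trans hxz) le_rfl) hxz (hxy.trans hxz) le_rfl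
        (Or.inr (Or.inr rfl))
    · exact key x (hpos x le_rfl hxy hxz) le_rfl hxy hxz (Or.inl rfl)

end local_ring

/-- The places above 3: if a is a unit at v and C_a has a point over the completion then
a = g^3 (1 + sqrt(-3) s) modulo 3, where s^3 = (1 + e) s modulo v. -/
theorem at_three {K : Type*} [Field K] [NumberField K] (v : HeightOneSpectrum (𝓞 K)) (π : 𝓞 K)
    (hπ : π ^ 2 = -3) (hv : v.valuation K (algebraMap _ K π) = WithZero.exp (-1 : ℤ))
    (n c e : 𝓞 K) (hn : 3 * π ∣ n - c ^ 3 * (1 + 3 * e)) (hc : c ∉ v.asIdeal) (a : K)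
    (ha : v.valuation K a = 1)
    (h : HasPoint (algebraMap K (v.adicCompletion K) (algebraMap _ K n))
      (algebraMap K (v.adicCompletion K) a)) :
    ∃ g s : 𝓞 K, g ∉ v.asIdeal ∧
      v.valuation K (a - algebraMap _ K (g ^ 3 * (1 + π * s))) ≤ v.valuation K 3 ∧
      s ^ 3 - (1 + e) * s ∈ v.asIdeal := by
  -- the uniformiser
  have hπmem : π ∈ v.asIdeal := by
    rw [← v.valuation_lt_one_iff_mem (K := K), hv, ← exp_zero, exp_lt_exp]
    norm_num
  have h3mem : (3 : 𝓞 K) ∈ v.asIdeal := by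
    have : (3 : 𝓞 K) = -(π * π) := by linear_combination hπ
    rw [this]
    exact v.asIdeal.neg_mem (v.asIdeal.mul_mem_left _ hπmem)
  -- an integral approximation of a, and its cube root modulo v
  obtain ⟨a₀, ha₀⟩ := v.exists_valuation_sub_lt_of_integer (K := K) ha.le 1
  rw [Units.val_one] at ha₀
  obtain ⟨α, hα⟩ := at3_frob v h3mem a₀
  -- the embeddings
  let ι : 𝓞 K →+* v.adicCompletion K :=
    (algebraMap K (v.adicCompletion K)).comp (algebraMap (𝓞 K) K)
  let j : 𝓞 K →+* v.adicCompletionIntegers K := algebraMap (𝓞 K) (v.adicCompletionIntegers K)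
  have hj : ∀ r : 𝓞 K, ((j r : v.adicCompletionIntegers K) : v.adicCompletion K) = ι r :=
    fun _ => rfl
  have hιv : ∀ r : 𝓞 K, Valued.v (ι r) = v.valuation K (algebraMap (𝓞 K) K r) :=
    fun r => val_completion v _
  have hι1 : ∀ r : 𝓞 K, Valued.v (ι r) ≤ 1 := fun r => by
    rw [hιv]; exact v.valuation_le_one r
  have hιlt : ∀ r : 𝓞 K, r ∈ v.asIdeal ↔ Valued.v (ι r) < 1 := fun r => by
    rw [hιv, v.valuation_lt_one_iff_mem]
  have hιeq : ∀ r : 𝓞 K, r ∉ v.asIdeal → Valued.v (ι r) = 1 := fun r hr => by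
    rw [hιv]; exact val_eq_one v hr
  have hvπ : Valued.v ((j π : v.adicCompletionIntegers K) : v.adicCompletion K) =
      exp (-1 : ℤ) := by
    rw [hj, hιv]; exact hv
  set A : v.adicCompletion K := algebraMap K (v.adicCompletion K) a with hA
  have hvA : Valued.v A = 1 := by rw [hA, val_completion]; exact ha
  let AO : v.adicCompletionIntegers K := ⟨A, by
    rw [HeightOneSpectrum.mem_adicCompletionIntegers]; exact hvA.le⟩
  have hAα : Valued.v (A - ι α ^ 3) < 1 := by
    have h1 : A - ι α ^ 3 = ι (a₀ - α ^ 3) -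
        algebraMap K (v.adicCompletion K) (algebraMap (𝓞 K) K a₀ - a) := by
      simp only [map_sub, map_pow, ι, RingHom.comp_apply, hA]
      ring
    rw [h1]
    refine Valuation.map_sub_lt _ ((hιlt _).1 hα) ?_
    rw [val_completion]
    exact ha₀
  have hαm : α ∉ v.asIdeal := by
    intro hm
    have h1 : Valued.v (ι α ^ 3) < 1 := by
      rw [map_pow]
      exact pow_lt_one₀ zero_le ((hιlt _).1 hm) (by norm_num)
    have h2 : Valued.v A < 1 := by
      have h3 : A = (A - ι α ^ 3) + ι α ^ 3 := by ring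
      rw [h3]
      exact Valuation.map_add_lt _ hAα h1
    rw [hvA] at h2
    exact lt_irrefl _ h2
  have hvα : Valued.v (ι α) = 1 := hιeq α hαm
  have hα0 : ι α ≠ 0 := by
    intro h1
    rw [h1, map_zero] at hvα
    exact zero_ne_one hvα
  obtain ⟨T, hT⟩ : j π ∣ AO - (j α) ^ 3 := by
    rw [at3_dvd_iff v hvπ]
    exact hAα
  have hT' : A - ι α ^ 3 = ι π * (T : v.adicCompletion K) :=
    congrArg (fun r : v.adicCompletionIntegers K => (r : v.adicCompletion K)) hT
  have hvT : Valued.v (T : v.adicCompletion K) ≤ 1 := T.2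
  -- the primitive point
  obtain ⟨x, y, z, hx, hy, hz, hprim, heq⟩ :=
    at3_primitive (Valued.v : Valuation (v.adicCompletion K) _) h
  have hdisj := lambda_ring (j π) (at3_prime v hvπ)
    (by rw [← map_pow, hπ, map_neg, map_ofNat]) (fun r hr => at3_unit v hvπ hr)
    (j n) AO (j α) T (j c) (j e) ⟨x, hx⟩ ⟨y, hy⟩ ⟨z, hz⟩
    (by
      rw [at3_dvd_iff v hvπ, not_lt]
      exact hvA.ge)
    (by linear_combination hT)
    (by
      rw [at3_dvd_iff v hvπ, hj, not_lt]
      exact (hιeq c hc).ge)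
    (by
      obtain ⟨k, hk⟩ := hn
      refine ⟨j k, ?_⟩
      have := congrArg j hk
      simpa only [map_sub, map_mul, map_pow, map_add, map_one, map_ofNat] using this)
    (by
      rw [at3_dvd_iff v hvπ, at3_dvd_iff v hvπ, at3_dvd_iff v hvπ]
      exact hprim)
    (Subtype.ext heq)
  -- the approximation of T / alpha^3
  have hvS : Valued.v ((T : v.adicCompletion K) / ι α ^ 3) ≤ 1 := by
    rw [map_div₀, map_pow, hvα, one_pow, div_one]
    exact hvT
  obtain ⟨s, hs⟩ := exists_int_sub_lt v _ hvS 1 one_pos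
  change Valued.v ((T : v.adicCompletion K) / ι α ^ 3 - ι s) < 1 at hs
  set S : v.adicCompletion K := (T : v.adicCompletion K) / ι α ^ 3 with hSdef
  have hTS : (T : v.adicCompletion K) = ι α ^ 3 * S := by
    rw [hSdef]
    field_simp
  refine ⟨α, s, hαm, ?_, ?_⟩
  · have h3 : v.valuation K 3 = exp (-2 : ℤ) := by
      have h31 : (3 : K) = -(algebraMap (𝓞 K) K π * algebraMap (𝓞 K) K π) := by
        rw [← map_mul, ← sq, hπ, map_neg, map_ofNat, neg_neg]
      rw [h31, Valuation.map_neg, map_mul, hv, ← exp_add]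
      norm_num
    rw [h3, ← val_completion]
    have h4 : algebraMap K (v.adicCompletion K)
        (a - algebraMap (𝓞 K) K (α ^ 3 * (1 + π * s))) = ι π * ι α ^ 3 * (S - ι s) := by
      have h5 : algebraMap K (v.adicCompletion K)
          (a - algebraMap (𝓞 K) K (α ^ 3 * (1 + π * s))) =
          A - ι α ^ 3 * (1 + ι π * ι s) := by
        simp only [map_sub, map_mul, map_pow, map_add, map_one, ι, RingHom.comp_apply, hA]
      rw [h5]
      linear_combination hT' + ι π * hTS
    rw [h4, map_mul, map_mul, map_pow, hvα, one_pow, mul_one]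
    have h6 : Valued.v (ι π) = exp (-1 : ℤ) := hvπ
    rw [h6]
    calc exp (-1 : ℤ) * Valued.v (S - ι s) ≤ exp (-1 : ℤ) * exp (-1 : ℤ) := by
          gcongr
          exact le_of_lt_one hs
      _ = exp (-2 : ℤ) := by rw [← exp_add]; norm_num
  · rw [hιlt]
    have hvSle : Valued.v S ≤ 1 := hvS
    have hve : Valued.v (1 + ι e) ≤ 1 :=
      Valuation.map_add_le _ (by rw [map_one]) (hι1 e)
    have h5 : ι (s ^ 3 - (1 + e) * s) = S * (S ^ 2 - (1 + ι e)) -
        (S - ι s) * (S ^ 2 + S * ι s + ι s ^ 2 - (1 + ι e)) := by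
      simp only [map_sub, map_mul, map_pow, map_add, map_one]
      ring
    rw [h5]
    refine Valuation.map_sub_lt _ ?_ ?_
    · rw [map_mul]
      have hvS2 : Valued.v (S ^ 2 - (1 + ι e)) ≤ 1 :=
        Valuation.map_sub_le _ (by rw [map_pow]; exact pow_le_one' hvSle 2) hve
      rcases hdisj with hd | hd
      · rw [at3_dvd_iff v hvπ] at hd
        have h6 : Valued.v S < 1 := by
          rw [hSdef, map_div₀, map_pow, hvα, one_pow, div_one]
          exact hd
        calc Valued.v S * Valued.v (S ^ 2 - (1 + ι e)) ≤ Valued.v S * 1 := by gcongr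
          _ < 1 := by rw [mul_one]; exact h6
      · rw [at3_dvd_iff v hvπ] at hd
        have h6 : (((T ^ 2 - (1 + j e) * j α ^ 6 : v.adicCompletionIntegers K)) :
            v.adicCompletion K) = ι α ^ 6 * (S ^ 2 - (1 + ι e)) := by
          change (T : v.adicCompletion K) ^ 2 - (1 + ι e) * ι α ^ 6 = _
          rw [hTS]
          ring
        rw [h6, map_mul, map_pow, hvα, one_pow, one_mul] at hd
        calc Valued.v S * Valued.v (S ^ 2 - (1 + ι e)) ≤ 1 * Valued.v (S ^ 2 - (1 + ι e)) := by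
              gcongr
          _ < 1 := by rw [one_mul]; exact hd
    · rw [map_mul]
      calc Valued.v (S - ι s) * Valued.v (S ^ 2 + S * ι s + ι s ^ 2 - (1 + ι e)) ≤
            Valued.v (S - ι s) * 1 := by
            gcongr
            refine Valuation.map_sub_le _ (Valuation.map_add_le _ (Valuation.map_add_le _ ?_ ?_) ?_)
              hve
            · rw [map_pow]; exact pow_le_one' hvSle 2
            · rw [map_mul]; exact mul_le_one' hvSle (hι1 s)
            · rw [map_pow]; exact pow_le_one' (hι1 s) 2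
        _ < 1 := by rw [mul_one]; exact hs

/-- The places above 3, integral form: if A = alpha^3 + theta t is prime to v and C_A has a
point over the completion then t = 0 or t^2 = (1 + e) alpha^6 modulo v. -/
theorem above_three {K : Type*} [Field K] [NumberField K] (v : HeightOneSpectrum (𝓞 K))
    (θ : 𝓞 K) (hθ : θ ^ 2 = -3) (hv : v.valuation K (algebraMap _ K θ) = WithZero.exp (-1 : ℤ))
    (n c e : 𝓞 K) (hn : 3 * θ ∣ n - c ^ 3 * (1 + 3 * e)) (hc : c ∉ v.asIdeal) (A α t : 𝓞 K)
    (hA : A ∉ v.asIdeal) (hα : A = α ^ 3 + θ * t)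
    (h : HasPoint (algebraMap K (v.adicCompletion K) (algebraMap _ K n))
      (algebraMap K (v.adicCompletion K) (algebraMap _ K A))) :
    t ∈ v.asIdeal ∨ t ^ 2 - (1 + e) * α ^ 6 ∈ v.asIdeal := by
  let ι : 𝓞 K →+* v.adicCompletion K :=
    (algebraMap K (v.adicCompletion K)).comp (algebraMap (𝓞 K) K)
  let j : 𝓞 K →+* v.adicCompletionIntegers K := algebraMap (𝓞 K) (v.adicCompletionIntegers K)
  have hj : ∀ r : 𝓞 K, ((j r : v.adicCompletionIntegers K) : v.adicCompletion K) = ι r :=
    fun _ => rfl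
  have hιv : ∀ r : 𝓞 K, Valued.v (ι r) = v.valuation K (algebraMap (𝓞 K) K r) :=
    fun r => val_completion v _
  have hιlt : ∀ r : 𝓞 K, r ∈ v.asIdeal ↔ Valued.v (ι r) < 1 := fun r => by
    rw [hιv, v.valuation_lt_one_iff_mem]
  have hιeq : ∀ r : 𝓞 K, r ∉ v.asIdeal → Valued.v (ι r) = 1 := fun r hr => by
    rw [hιv]; exact val_eq_one v hr
  have hvπ : Valued.v ((j θ : v.adicCompletionIntegers K) : v.adicCompletion K) =
      exp (-1 : ℤ) := by
    rw [hj, hιv]; exact hv
  obtain ⟨x, y, z, hx, hy, hz, hprim, heq⟩ :=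
    at3_primitive (Valued.v : Valuation (v.adicCompletion K) _) h
  have hdisj := lambda_ring (j θ) (at3_prime v hvπ)
    (by rw [← map_pow, hθ, map_neg, map_ofNat]) (fun r hr => at3_unit v hvπ hr)
    (j n) (j A) (j α) (j t) (j c) (j e) ⟨x, hx⟩ ⟨y, hy⟩ ⟨z, hz⟩
    (by
      rw [at3_dvd_iff v hvπ, hj, not_lt]
      exact (hιeq A hA).ge)
    (by rw [hα, map_add, map_pow, map_mul])
    (by
      rw [at3_dvd_iff v hvπ, hj, not_lt]
      exact (hιeq c hc).ge)
    (by
      obtain ⟨k, hk⟩ := hn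
      refine ⟨j k, ?_⟩
      have := congrArg j hk
      simpa only [map_sub, map_mul, map_pow, map_add, map_one, map_ofNat] using this)
    (by
      rw [at3_dvd_iff v hvπ, at3_dvd_iff v hvπ, at3_dvd_iff v hvπ]
      exact hprim)
    (Subtype.ext heq)
  rcases hdisj with hd | hd
  · left
    rw [at3_dvd_iff v hvπ, hj] at hd
    exact (hιlt t).2 hd
  · right
    have h1 : j t ^ 2 - (1 + j e) * j α ^ 6 = j (t ^ 2 - (1 + e) * α ^ 6) := by
      simp only [map_sub, map_mul, map_pow, map_add, map_one]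
    rw [h1, at3_dvd_iff v hvπ, hj] at hd
    exact (hιlt _).2 hd

end Pool.Agent.MP009fd8T
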