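import Pool.Agent.Lib.MP_009fd8_agT.Def

/-!
MP_009fd8_ag, p = 3, leaf file: away from q a soluble covering has valuations divisible by 3.
-/

namespace Pool.Agent.MP009fd8T

/-- If C_a has a point over a valued field in which the valuation of n is a cube in the value
group, then the valuation of a is a cube in the value group.

Proof. Take a point. The three terms a x^3, a^2 y^3, -n z^3 sum to zero and are not all zero, so
the largest valuation occurs at least twice. If v(a x^3) = v(a^2 y^3) is not 0: v(a) = (v x / v y)^3.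
If v(a x^3) = v(n z^3): v(a) = v(n) (v z / v x)^3. If v(a^2 y^3) = v(n z^3): v(a)^2 is a cube, so
v(a) = v(a)^3 / v(a)^2 is a cube. -/
theorem cube_away {F : Type*} [Field F] {Γ : Type*} [LinearOrderedCommGroupWithZero Γ]
    (v : Valuation F Γ) (n a : F) (ha : a ≠ 0) (hn0 : n ≠ 0) (hn : ∃ w, v n = w ^ 3)
    (h : HasPoint n a) : ∃ w, v a = w ^ 3 := by
  obtain ⟨x, y, z, hne, h1⟩ := h
  obtain ⟨w, hw⟩ := hn
  have va : v a ≠ 0 := (Valuation.ne_zero_iff v).2 ha
  have eA : v (a * x ^ 3) = v a * v x ^ 3 := by rw [map_mul, map_pow]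
  have eB : v (a ^ 2 * y ^ 3) = v a ^ 2 * v y ^ 3 := by rw [map_mul, map_pow, map_pow]
  have eC : v (n * z ^ 3) = (w * v z) ^ 3 := by rw [map_mul, map_pow, hw, mul_pow]
  rcases lt_trichotomy (v (a * x ^ 3)) (v (a ^ 2 * y ^ 3)) with hlt | heq | hgt
  · have k1 : v (n * z ^ 3) = v (a ^ 2 * y ^ 3) := by
      rw [← h1]
      exact Valuation.map_add_eq_of_lt_right v hlt
    have hy : v y ≠ 0 := by
      intro h0
      rw [eB, h0] at hlt
      simp at hlt
    rw [eB, eC] at k1
    have k2 : v a ^ 2 = (w * v z / v y) ^ 3 := by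
      rw [div_pow, k1, mul_div_assoc, div_self (pow_ne_zero 3 hy), mul_one]
    refine ⟨v a / (w * v z / v y), ?_⟩
    rw [div_pow, ← k2, pow_succ (v a) 2, mul_comm, mul_div_assoc, div_self (pow_ne_zero 2 va),
      mul_one]
  · have hx : x ≠ 0 := by
      rintro rfl
      have k1 : v (a ^ 2 * y ^ 3) = 0 := by rw [← heq]; simp
      have k2 : a ^ 2 * y ^ 3 = 0 := (Valuation.zero_iff v).1 k1
      have hy : y = 0 := by
        rcases mul_eq_zero.1 k2 with h | h
        · exact absurd h (pow_ne_zero 2 ha)
        · exact (pow_eq_zero_iff (by norm_num)).1 h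
      have k3 : n * z ^ 3 = 0 := by rw [← h1, k2]; ring
      have hz : z = 0 := by
        rcases mul_eq_zero.1 k3 with h | h
        · exact absurd h hn0
        · exact (pow_eq_zero_iff (by norm_num)).1 h
      rcases hne with h | h | h
      · exact h rfl
      · exact h hy
      · exact h hz
    have vx : v x ≠ 0 := (Valuation.ne_zero_iff v).2 hx
    rw [eA, eB] at heq
    have k4 : v x ^ 3 = v a * v y ^ 3 := by
      apply mul_left_cancel₀ va
      rw [heq, sq, mul_assoc]
    have vy : v y ≠ 0 := by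
      intro h0
      rw [h0] at k4
      exact pow_ne_zero 3 vx (by rw [k4]; simp)
    refine ⟨v x / v y, ?_⟩
    rw [div_pow, k4, mul_div_assoc, div_self (pow_ne_zero 3 vy), mul_one]
  · have k1 : v (n * z ^ 3) = v (a * x ^ 3) := by
      rw [← h1]
      exact Valuation.map_add_eq_of_lt_left v hgt
    have hx : v x ≠ 0 := by
      intro h0
      rw [eA, h0] at hgt
      simp at hgt
    rw [eA, eC] at k1
    refine ⟨w * v z / v x, ?_⟩
    rw [div_pow, k1, mul_div_assoc, div_self (pow_ne_zero 3 hx), mul_one]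

end Pool.Agent.MP009fd8T
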