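import Pool.Agent.Lib.MP_009fd8_agT.AtQ
import Pool.Agent.Lib.MP_009fd8_ag.Places
import Pool.Agent.Lib.MP_009fd8_ag.Approx

/-!
MP_009fd8_ag, p = 3: the bad places, in terms of elements of `K`.
-/

namespace Pool.Agent.MP009fd8T

open IsDedekindDomain NumberField WithZero

section val

variable {F : Type*} [Field F] {Γ : Type*} [LinearOrderedCommGroupWithZero Γ]

/-- `x` is, up to a factor `1 + m` with `v m < 1`, a cube of the valued field. -/
def NearCube (v : Valuation F Γ) (x : F) : Prop := ∃ g : F, v (x - g ^ 3) < v x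

theorem NearCube.ne_zero {v : Valuation F Γ} {x : F} (h : NearCube v x) : v x ≠ 0 := by
  obtain ⟨g, hg⟩ := h
  exact ne_of_gt (lt_of_le_of_lt zero_le hg)

theorem nearCube_val {v : Valuation F Γ} {x g : F} (h : v (x - g ^ 3) < v x) :
    v x = v g ^ 3 := by
  have h1 : g ^ 3 = x - (x - g ^ 3) := by ring
  rw [← map_pow, h1]
  exact (Valuation.map_sub_eq_of_lt_left v h).symm

theorem NearCube.mul {v : Valuation F Γ} {x y : F} (hx : NearCube v x) (hy : NearCube v y) :
    NearCube v (x * y) := by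
  have hx0 := hx.ne_zero
  have hy0 := hy.ne_zero
  obtain ⟨g, hg⟩ := hx
  obtain ⟨k, hk⟩ := hy
  refine ⟨g * k, ?_⟩
  have e : x * y - (g * k) ^ 3 = (x - g ^ 3) * y + g ^ 3 * (y - k ^ 3) := by ring
  rw [e, map_mul v x y]
  refine Valuation.map_add_lt v ?_ ?_
  · rw [map_mul]
    exact mul_lt_mul_of_pos_right hg (zero_lt_iff.2 hy0)
  · rw [map_mul, map_pow, ← nearCube_val hg]
    exact mul_lt_mul_of_pos_left hk (zero_lt_iff.2 hx0)

theorem nearCube_pow_three {v : Valuation F Γ} {r : F} (hr : r ≠ 0) : NearCube v (r ^ 3) := by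
  refine ⟨r, ?_⟩
  rw [sub_self, map_zero]
  exact zero_lt_iff.2 ((Valuation.ne_zero_iff v).2 (pow_ne_zero 3 hr))

end val

theorem exists_pow_mul_cube {x y : WithZero (Multiplicative ℤ)} (hx : x ≠ 0) (hy : y ≠ 0)
    (hc : ¬ ∃ w, y = w ^ 3) : ∃ (j : ℕ) (w : WithZero (Multiplicative ℤ)), w ≠ 0 ∧
      x * y ^ j = w ^ 3 := by
  lift x to ℤ using hx with a
  lift y to ℤ using hy with b
  have hb : ¬ (3 : ℤ) ∣ b := by
    rintro ⟨k, rfl⟩
    exact hc ⟨exp k, by rw [← exp_nsmul]; congr 1⟩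
  have ha3 : a % 3 = 0 ∨ a % 3 = 1 ∨ a % 3 = 2 := by omega
  have hb3 : b % 3 = 1 ∨ b % 3 = 2 := by omega
  have : (3 : ℤ) ∣ a ∨ (3 : ℤ) ∣ a + b ∨ (3 : ℤ) ∣ a + 2 * b := by
    rcases ha3 with h1 | h1 | h1 <;> rcases hb3 with h2 | h2 <;> omega
  rcases this with ⟨k, hk⟩ | ⟨k, hk⟩ | ⟨k, hk⟩
  · refine ⟨0, exp k, exp_ne_zero, ?_⟩
    rw [pow_zero, mul_one, ← exp_nsmul, hk]
    congr 1
  · refine ⟨1, exp k, exp_ne_zero, ?_⟩
    rw [pow_one, ← exp_nsmul, ← exp_add, hk]
    congr 1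
  · refine ⟨2, exp k, exp_ne_zero, ?_⟩
    rw [← exp_nsmul, ← exp_nsmul, ← exp_add]
    rw [exp_inj]
    simp only [nsmul_eq_mul]
    push_cast
    linarith

variable {K : Type*} [Field K] [NumberField K]

/-- the bad places: if `C_a` has a point over `K_v` and the valuation of `n` is not a cube, then
`a n^j` is nearly a cube for some `j` -/
theorem nearCube_bad (v : HeightOneSpectrum (𝓞 K)) {n a : K} (hn0 : n ≠ 0) (ha : a ≠ 0)
    (hn : ¬ ∃ w, v.valuation K n = w ^ 3)
    (h : HasPoint (algebraMap K (v.adicCompletion K) n) (algebraMap K (v.adicCompletion K) a)) :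
    ∃ j : ℕ, NearCube (v.valuation K) (a * n ^ j) := by
  obtain ⟨j, w, hw0, hw⟩ := exists_pow_mul_cube ((Valuation.ne_zero_iff (v.valuation K)).2 ha)
    ((Valuation.ne_zero_iff (v.valuation K)).2 hn0) hn
  obtain ⟨r, hr⟩ := v.valuation_surjective K w
  have hr0 : r ≠ 0 := by
    rintro rfl
    rw [map_zero] at hr
    exact hw0 hr.symm
  refine ⟨j, ?_⟩
  set u : K := n ^ j * a * r⁻¹ ^ 3 with hu
  have hu1 : v.valuation K u = 1 := by
    rw [hu, map_mul, map_mul, map_pow, map_pow, map_inv₀, hr, mul_comm (_ ^ j), hw, ← mul_pow,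
      mul_inv_cancel₀ hw0, one_pow]
  have hpt : HasPoint (algebraMap K (v.adicCompletion K) n)
      (algebraMap K (v.adicCompletion K) u) := by
    have h1 := ((h.mul_n_pow ((map_ne_zero _).2 hn0) ((map_ne_zero _).2 ha) j)).mul_cube
      (r := algebraMap K (v.adicCompletion K) r⁻¹) ((map_ne_zero _).2 (inv_ne_zero hr0))
    rw [← map_pow, ← map_mul, ← map_pow, ← map_mul] at h1
    exact h1
  obtain ⟨g, hg1, hg⟩ := cube_at_q (Valued.v : Valuation (v.adicCompletion K) _)
    (algebraMap K (v.adicCompletion K) n) (algebraMap K (v.adicCompletion K) u)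
    (by rw [MP009fd8.val_completion]; exact hu1)
    (by rw [MP009fd8.val_completion]; exact hn) hpt
  obtain ⟨m, hm⟩ := MP009fd8.exists_int_sub_lt v g hg1 1 one_pos
  have hmg : Valued.v (algebraMap K (v.adicCompletion K) (algebraMap (𝓞 K) K m)) ≤ 1 := by
    rw [MP009fd8.val_completion]; exact v.valuation_le_one m
  set M := algebraMap K (v.adicCompletion K) (algebraMap (𝓞 K) K m) with hM
  have hlt : v.valuation K (u - (algebraMap (𝓞 K) K m) ^ 3) < 1 := by
    rw [← MP009fd8.val_completion, map_sub, map_pow, ← hM]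
    have e : algebraMap K (v.adicCompletion K) u - M ^ 3 =
        (algebraMap K (v.adicCompletion K) u - g ^ 3) + (g - M) * (g ^ 2 + g * M + M ^ 2) := by
      ring
    rw [e]
    refine Valuation.map_add_lt _ hg ?_
    rw [map_mul]
    calc _ ≤ Valued.v (g - M) * 1 := by
          gcongr
          refine Valuation.map_add_le _ (Valuation.map_add_le _ ?_ ?_) ?_
          · rw [map_pow]; exact pow_le_one' hg1 2
          · rw [map_mul]; exact mul_le_one' hg1 hmg
          · rw [map_pow]; exact pow_le_one' hmg 2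
      _ < 1 := by rw [mul_one]; exact hm
  refine ⟨r * algebraMap (𝓞 K) K m, ?_⟩
  have e : a * n ^ j - (r * algebraMap (𝓞 K) K m) ^ 3 =
      r ^ 3 * (u - (algebraMap (𝓞 K) K m) ^ 3) := by
    rw [hu]
    field_simp
  rw [e, map_mul, map_pow, map_mul, map_pow, hw, hr]
  calc w ^ 3 * v.valuation K (u - algebraMap (𝓞 K) K m ^ 3) < w ^ 3 * 1 :=
        mul_lt_mul_of_pos_left hlt (zero_lt_iff.2 (pow_ne_zero 3 hw0))
    _ = w ^ 3 := mul_one _

end Pool.Agent.MP009fd8T
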