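import Mathlib

/-!
MP_009fd8_ag, p = 3, leaf file: in a number field of class number prime to 3, an element all of
whose valuations are cubes is a unit times a cube.
-/

namespace Pool.Agent.MP009fd8T

open IsDedekindDomain NumberField UniqueFactorizationMonoid

/-- A multiset with multiplicities divisible by three is three times a multiset. -/
private theorem exists_three_nsmul {α : Type*} [DecidableEq α] (s : Multiset α)
    (h : ∀ p ∈ s, 3 ∣ s.count p) : ∃ t : Multiset α, s = 3 • t := by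
  refine ⟨∑ p ∈ s.toFinset, (s.count p / 3) • {p}, ?_⟩
  rw [← Finset.sum_nsmul]
  conv_lhs => rw [← Multiset.toFinset_sum_count_nsmul_eq s]
  refine Finset.sum_congr rfl fun p hp => ?_
  rw [← mul_nsmul', Nat.mul_div_cancel' (h p (Multiset.mem_toFinset.1 hp))]

/-- An ideal with multiplicities divisible by three is a cube. -/
private theorem ideal_exists_cube {R : Type*} [CommRing R] [IsDedekindDomain R] (I : Ideal R)
    (hI : I ≠ ⊥) (h : ∀ v : HeightOneSpectrum R, 3 ∣ multiplicity v.asIdeal I) :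
    ∃ J : Ideal R, I = J ^ 3 := by
  classical
  obtain ⟨t, ht⟩ := exists_three_nsmul (normalizedFactors I) (by
    intro p hp
    have hpr : Prime p := prime_of_normalized_factor p hp
    have hp0 : p ≠ ⊥ := hpr.ne_zero
    let v : HeightOneSpectrum R := ⟨p, Ideal.isPrime_of_prime hpr, hp0⟩
    have h1 := h v
    have hfm : FiniteMultiplicity p I := FiniteMultiplicity.of_prime_left hpr hI
    have h2 := emultiplicity_eq_count_normalizedFactors hpr.irreducible hI
    rw [normalize_eq, hfm.emultiplicity_eq_multiplicity] at h2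
    have h3 : multiplicity p I = (normalizedFactors I).count p := by exact_mod_cast h2
    rw [← h3]
    exact h1)
  refine ⟨t.prod, ?_⟩
  rw [← Ideal.prod_normalizedFactors_eq_self hI, ht, Multiset.prod_nsmul]

/-- `exp (-m)` is a cube only for `m` divisible by three. -/
private theorem three_dvd_of_exp_cube {m : ℕ} (h : ∃ y, WithZero.exp (-(m : ℤ)) = y ^ 3) :
    3 ∣ m := by
  obtain ⟨y, hy⟩ := h
  have hy0 : y ≠ 0 := by
    rintro rfl
    simp at hy
  obtain ⟨k, hk⟩ : ∃ k : ℤ, y = WithZero.exp k := ⟨WithZero.log y, (WithZero.exp_log hy0).symm⟩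
  rw [hk, pow_succ, pow_two, ← WithZero.exp_add, ← WithZero.exp_add, WithZero.exp_inj] at hy
  omega

/-- Class number prime to 3: an element of K with all valuations cubes is a unit times a cube.

Proof: exactly as exists_unit_mul_sq in Pool/Agent/Lib/MP_009fd8_ag/ClassLemma.lean with 2
replaced by 3 (write x = n / d, look at n d^2 = x d^3). -/
theorem exists_unit_mul_cube {K : Type*} [Field K] [NumberField K]
    (hclass : ¬ 3 ∣ NumberField.classNumber K) (x : K) (hx : x ≠ 0)
    (hv : ∀ v : HeightOneSpectrum (𝓞 K), ∃ w, v.valuation K x = w ^ 3) :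
    ∃ (u : (𝓞 K)ˣ) (r : K), r ≠ 0 ∧ x = algebraMap (𝓞 K) K (u : 𝓞 K) * r ^ 3 := by
  obtain ⟨n, d, hd, hxnd⟩ := IsFractionRing.div_surjective (A := 𝓞 K) x
  have hd0 : d ≠ 0 := nonZeroDivisors.ne_zero hd
  have hdK : algebraMap (𝓞 K) K d ≠ 0 := by
    simpa using hd0
  have hn0 : n ≠ 0 := by
    rintro rfl
    apply hx
    rw [← hxnd]; simp
  set y : 𝓞 K := n * d ^ 2 with hy
  have hy0 : y ≠ 0 := mul_ne_zero hn0 (pow_ne_zero 2 hd0)
  have hyx : algebraMap (𝓞 K) K y = x * (algebraMap (𝓞 K) K d) ^ 3 := by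
    rw [hy, map_mul, map_pow, ← hxnd]
    field_simp
  have hev : ∀ v : HeightOneSpectrum (𝓞 K), 3 ∣ multiplicity v.asIdeal (Ideal.span {y}) := by
    intro v
    apply three_dvd_of_exp_cube
    have e0 : v.valuation K (algebraMap (𝓞 K) K y) = v.intValuation y :=
      v.valuation_of_algebraMap y
    obtain ⟨w, hw⟩ := hv v
    refine ⟨w * v.valuation K (algebraMap (𝓞 K) K d), ?_⟩
    rw [← v.intValuation_eq_exp_neg_multiplicity hy0, ← e0, hyx, map_mul, map_pow, hw, mul_pow]
  have hspan : Ideal.span {y} ≠ ⊥ := by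
    rw [Ne, Ideal.span_singleton_eq_bot]; exact hy0
  obtain ⟨J, hJ⟩ := ideal_exists_cube _ hspan hev
  have hJ0 : J ≠ 0 := by
    rintro rfl
    rw [zero_pow three_ne_zero] at hJ
    exact hspan hJ
  let J' : nonZeroDivisors (Ideal (𝓞 K)) := ⟨J, mem_nonZeroDivisors_of_ne_zero hJ0⟩
  have hJ2 : ClassGroup.mk0 J' ^ 3 = 1 := by
    rw [← map_pow, ClassGroup.mk0_eq_one_iff]
    refine ⟨⟨y, ?_⟩⟩
    change J ^ 3 = _
    rw [← hJ]
  have hJ1 : ClassGroup.mk0 J' = 1 := by
    rw [← orderOf_eq_one_iff]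
    have h1 := orderOf_dvd_of_pow_eq_one hJ2
    have h2 := orderOf_dvd_card (x := ClassGroup.mk0 J')
    have h3 : Nat.Coprime 3 (Fintype.card (ClassGroup (𝓞 K))) :=
      (Nat.Prime.coprime_iff_not_dvd Nat.prime_three).2 hclass
    exact Nat.Coprime.eq_one_of_dvd (Nat.Coprime.coprime_dvd_left h1 h3) h2
  rw [ClassGroup.mk0_eq_one_iff] at hJ1
  obtain ⟨⟨r, hr⟩⟩ := hJ1
  have hr' : J = Ideal.span {r} := hr
  rw [hr', Ideal.span_singleton_pow, Ideal.span_singleton_eq_span_singleton] at hJ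
  obtain ⟨u, hu⟩ := hJ.symm
  have hr0 : r ≠ 0 := by
    rintro rfl
    apply hJ0
    rw [hr']; simp
  refine ⟨u, algebraMap (𝓞 K) K r / algebraMap (𝓞 K) K d, div_ne_zero (by simpa using hr0) hdK, ?_⟩
  have e1 : x = algebraMap (𝓞 K) K y / (algebraMap (𝓞 K) K d) ^ 3 := by
    rw [hyx]; field_simp
  rw [e1, ← hu, map_mul, map_pow]
  field_simp

end Pool.Agent.MP009fd8T
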