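import Pool.Agent.Lib.MP_009fd8_agT.Main3

/-!
MP_009fd8_ag, p = 3: a criterion for the strict Selmer group to be generated by `n`.
-/

namespace Pool.Agent.MP009fd8T

open IsDedekindDomain NumberField WithZero

variable {K : Type*} [Field K] [NumberField K]

/-- Class number prime to 3, one bad place `q` and every unit that is a cube modulo 3 and modulo `q`
is a cube: then the strict Selmer group is generated by `n`. -/
theorem strictSelmer_trivial (hcl : ¬ 3 ∣ NumberField.classNumber K) {n : 𝓞 K} (hn0 : n ≠ 0)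
    (hn3 : IsCoprime n 3) (hnc : ∃ c : 𝓞 K, 3 ∣ n - c ^ 3) (q : HeightOneSpectrum (𝓞 K))
    (hqbad : ¬ ∃ w, q.valuation K (algebraMap (𝓞 K) K n) = w ^ 3)
    (hgood : ∀ v : HeightOneSpectrum (𝓞 K), v ≠ q →
      ∃ w, v.valuation K (algebraMap (𝓞 K) K n) = w ^ 3)
    (hunit : ∀ u : (𝓞 K)ˣ, (∃ m : 𝓞 K, 3 ∣ (u : 𝓞 K) - m ^ 3) →
      (∃ m : 𝓞 K, (u : 𝓞 K) - m ^ 3 ∈ q.asIdeal) → ∃ w : (𝓞 K)ˣ, u = w ^ 3)
    (A : 𝓞 K) (hA0 : A ≠ 0) (hA : StrictSelmer n A) :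
    SameClass (algebraMap (𝓞 K) K n) (algebraMap (𝓞 K) K A) 1 := by
  have hnK : algebraMap (𝓞 K) K n ≠ 0 := by simpa using hn0
  have hAK : algebraMap (𝓞 K) K A ≠ 0 := by simpa using hA0
  obtain ⟨j, hj⟩ := hA.bad q hqbad
  obtain ⟨u, r, hr, hur⟩ := exists_unit_mul_cube hcl
    (algebraMap (𝓞 K) K A * algebraMap (𝓞 K) K n ^ j) (mul_ne_zero hAK (pow_ne_zero j hnK))
    (fun v => by
      by_cases hv : v = q
      · obtain ⟨g, hg⟩ := hj
        exact ⟨_, by rw [hv]; exact nearCube_val hg⟩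
      · obtain ⟨w, hw⟩ := hgood v hv
        obtain ⟨w', hw'⟩ := hA.good v ⟨w, hw⟩
        refine ⟨w' * w ^ j, ?_⟩
        rw [map_mul, map_pow, hw, hw', mul_pow, ← pow_mul, ← pow_mul, mul_comm 3 j])
  have hu0 : algebraMap (𝓞 K) K (u : 𝓞 K) ≠ 0 := by simp
  have hinv : algebraMap (𝓞 K) K (u : 𝓞 K) * algebraMap (𝓞 K) K ((u⁻¹ : (𝓞 K)ˣ) : 𝓞 K) = 1 := by
    rw [← map_mul, Units.mul_inv, map_one]
  -- r is an integer
  have hr3 : r ^ 3 = algebraMap (𝓞 K) K (((u⁻¹ : (𝓞 K)ˣ) : 𝓞 K) * (A * n ^ j)) := by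
    rw [map_mul, map_mul, map_pow, hur]
    linear_combination (-r ^ 3) * hinv
  obtain ⟨ρ, hρ⟩ : ∃ ρ : 𝓞 K, algebraMap (𝓞 K) K ρ = r := by
    have hint : IsIntegral (𝓞 K) r := by
      refine IsIntegral.of_pow (n := 3) (by norm_num) ?_
      rw [hr3]
      exact isIntegral_algebraMap
    exact IsIntegrallyClosed.isIntegral_iff.1 hint
  have hAn : A * n ^ j = (u : 𝓞 K) * ρ ^ 3 := by
    apply IsFractionRing.injective (𝓞 K) K
    rw [map_mul, map_pow, map_mul, map_pow, hρ]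
    exact hur
  -- u is a cube modulo 3
  have hu3 : ∃ m : 𝓞 K, 3 ∣ (u : 𝓞 K) - m ^ 3 := by
    have hcop : IsCoprime ((u : 𝓞 K) * ρ ^ 3) 3 := by
      rw [← hAn]
      exact hA.coprime.mul_left hn3.pow_left
    have hρ3 : IsCoprime ρ 3 := by
      have h1 := hcop.of_mul_left_right
      exact (IsCoprime.pow_left_iff (by norm_num)).1 h1
    obtain ⟨x, y, hxy⟩ := hρ3
    obtain ⟨c, hc⟩ := hnc
    obtain ⟨m, hm⟩ := hA.three
    refine ⟨m * c ^ j * x, ?_⟩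
    have h1 : (3 : 𝓞 K) ∣ n ^ j - (c ^ j) ^ 3 := by
      have h2 := sub_dvd_pow_sub_pow n (c ^ 3) j
      rw [← pow_mul, mul_comm 3 j, pow_mul] at h2
      exact hc.trans h2
    have h2 : (3 : 𝓞 K) ∣ A * n ^ j - (m * c ^ j) ^ 3 := by
      have e : A * n ^ j - (m * c ^ j) ^ 3 = (A - m ^ 3) * n ^ j + m ^ 3 * (n ^ j - (c ^ j) ^ 3) := by
        ring
      rw [e]
      exact dvd_add (dvd_mul_of_dvd_left hm _) (dvd_mul_of_dvd_right h1 _)
    have h3 : (3 : 𝓞 K) ∣ ρ ^ 3 * x ^ 3 - 1 := by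
      have e : ρ ^ 3 * x ^ 3 - 1 = 3 * (-(y * (x ^ 2 * ρ ^ 2 + x * ρ + 1))) := by
        have h4 : x * ρ = 1 - 3 * y := by linear_combination hxy
        have h5 : ρ ^ 3 * x ^ 3 = (x * ρ) ^ 3 := by ring
        have h6 : x ^ 2 * ρ ^ 2 = (x * ρ) ^ 2 := by ring
        rw [h5, h6, h4]
        ring
      rw [e]
      exact dvd_mul_right _ _
    have e : (u : 𝓞 K) - (m * c ^ j * x) ^ 3 = (A * n ^ j - (m * c ^ j) ^ 3) * x ^ 3 -
        (u : 𝓞 K) * (ρ ^ 3 * x ^ 3 - 1) := by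
      rw [hAn]
      ring
    rw [e]
    exact dvd_sub (dvd_mul_of_dvd_left h2 _) (dvd_mul_of_dvd_right h3 _)
  -- u is a cube modulo q
  have huq : ∃ m : 𝓞 K, (u : 𝓞 K) - m ^ 3 ∈ q.asIdeal := by
    obtain ⟨g, hg⟩ := hj
    rw [hur] at hg
    have hvu : q.valuation K (algebraMap (𝓞 K) K (u : 𝓞 K)) = 1 := MP009fd8.val_unit q u
    have hvr : q.valuation K r ≠ 0 := (Valuation.ne_zero_iff _).2 hr
    have e : algebraMap (𝓞 K) K (u : 𝓞 K) * r ^ 3 - g ^ 3 =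
        (algebraMap (𝓞 K) K (u : 𝓞 K) - (g / r) ^ 3) * r ^ 3 := by
      field_simp
    rw [e, map_mul, map_mul _ _ (r ^ 3), hvu, one_mul, map_pow] at hg
    have hlt : q.valuation K (algebraMap (𝓞 K) K (u : 𝓞 K) - (g / r) ^ 3) < 1 := by
      have h1 : 0 < q.valuation K r ^ 3 := zero_lt_iff.2 (pow_ne_zero 3 hvr)
      exact lt_of_mul_lt_mul_right (by rw [one_mul]; exact hg) h1.le
    have hgr : q.valuation K (g / r) ^ 3 = 1 := by
      have := nearCube_val (v := q.valuation K) (x := algebraMap (𝓞 K) K (u : 𝓞 K)) (g := g / r)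
        (by rw [hvu]; exact hlt)
      rw [← this, hvu]
    have hgr1 : q.valuation K (g / r) ≤ 1 :=
      le_of_eq ((pow_eq_one_iff_of_nonneg zero_le three_ne_zero).1 hgr)
    obtain ⟨m, hm⟩ := q.exists_valuation_sub_lt_of_integer hgr1 1
    refine ⟨m, (q.valuation_lt_one_iff_mem (K := K) _).1 ?_⟩
    change q.valuation K (algebraMap (𝓞 K) K ((u : 𝓞 K) - m ^ 3)) < 1
    rw [map_sub, map_pow]
    set M := algebraMap (𝓞 K) K m with hM
    have hM1 : q.valuation K M ≤ 1 := q.valuation_le_one m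
    have e2 : algebraMap (𝓞 K) K (u : 𝓞 K) - M ^ 3 =
        (algebraMap (𝓞 K) K (u : 𝓞 K) - (g / r) ^ 3) -
          (M - g / r) * ((g / r) ^ 2 + (g / r) * M + M ^ 2) := by
      ring
    rw [e2]
    refine Valuation.map_sub_lt _ hlt ?_
    rw [map_mul]
    calc _ ≤ q.valuation K (M - g / r) * 1 := by
          gcongr
          refine Valuation.map_add_le _ (Valuation.map_add_le _ ?_ ?_) ?_
          · rw [map_pow]; exact pow_le_one' hgr1 2
          · rw [map_mul]; exact mul_le_one' hgr1 hM1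
          · rw [map_pow]; exact pow_le_one' hM1 2
      _ < 1 := by rw [mul_one]; simpa using hm
  obtain ⟨w, hw⟩ := hunit u hu3 huq
  have hw0 : algebraMap (𝓞 K) K (w : 𝓞 K) ≠ 0 := by simp
  refine ⟨2 * j, algebraMap (𝓞 K) K (w : 𝓞 K) * r / algebraMap (𝓞 K) K n ^ j,
    div_ne_zero (mul_ne_zero hw0 hr) (pow_ne_zero j hnK), ?_⟩
  have hnj : algebraMap (𝓞 K) K n ^ j ≠ 0 := pow_ne_zero j hnK
  rw [hw, Units.val_pow_eq_pow_val, map_pow] at hur
  rw [pow_mul', mul_one]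
  field_simp
  linear_combination hur

end Pool.Agent.MP009fd8T
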