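import Pool.Agent.Lib.MP_009fd8_agT.Main3

/-!
MP_009fd8_ag, p = 3: a criterion for the strict Selmer group to be generated by `n`, with any number
of bad places (one bad place: s = 1).
-/

namespace Pool.Agent.MP009fd8T

open IsDedekindDomain NumberField WithZero

section val

variable {F : Type*} [Field F] {Γ : Type*} [LinearOrderedCommGroupWithZero Γ]

theorem NearCube.of_mul {v : Valuation F Γ} {x y : F} (h : NearCube v (x * y))
    (hy : NearCube v y) : NearCube v x := by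
  have hy0 : y ≠ 0 := (Valuation.ne_zero_iff v).1 hy.ne_zero
  have e : x = (x * y) * (y * y) * (y⁻¹) ^ 3 := by field_simp
  rw [e]
  exact (h.mul (hy.mul hy)).mul (nearCube_pow_three (inv_ne_zero hy0))

theorem nearCube_one (v : Valuation F Γ) : NearCube v 1 := by
  have := nearCube_pow_three (v := v) (r := (1 : F)) one_ne_zero
  rwa [one_pow] at this

theorem NearCube.pow {v : Valuation F Γ} {x : F} (h : NearCube v x) (k : ℕ) :
    NearCube v (x ^ k) := by
  induction k with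
  | zero => rw [pow_zero]; exact nearCube_one v
  | succ k ih => rw [pow_succ]; exact ih.mul h

theorem nearCube_prod {v : Valuation F Γ} {ι : Type*} (s : Finset ι) (f : ι → F)
    (h : ∀ i ∈ s, NearCube v (f i)) : NearCube v (∏ i ∈ s, f i) := by
  classical
  induction s using Finset.induction_on with
  | empty => rw [Finset.prod_empty]; exact nearCube_one v
  | insert a s ha ih =>
    rw [Finset.prod_insert ha]
    exact (h a (Finset.mem_insert_self a s)).mul
      (ih fun i hi => h i (Finset.mem_insert_of_mem hi))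

end val

variable {K : Type*} [Field K] [NumberField K]

theorem nearCube_of_int (v : HeightOneSpectrum (𝓞 K)) {x : 𝓞 K} (hx : x ∉ v.asIdeal)
    (h : ∃ m : 𝓞 K, x - m ^ 3 ∈ v.asIdeal) :
    NearCube (v.valuation K) (algebraMap (𝓞 K) K x) := by
  obtain ⟨m, hm⟩ := h
  refine ⟨algebraMap (𝓞 K) K m, ?_⟩
  rw [MP009fd8.val_eq_one v hx, ← map_pow, ← map_sub, v.valuation_lt_one_iff_mem]
  exact hm

theorem nearCube_int (v : HeightOneSpectrum (𝓞 K)) {x : 𝓞 K} (hx : x ∉ v.asIdeal)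
    (h : NearCube (v.valuation K) (algebraMap (𝓞 K) K x)) : ∃ m : 𝓞 K, x - m ^ 3 ∈ v.asIdeal := by
  obtain ⟨g, hg⟩ := h
  have hx1 := MP009fd8.val_eq_one (K := K) v hx
  have hg3 := nearCube_val hg
  rw [hx1] at hg hg3
  have hg1 : v.valuation K g ≤ 1 :=
    le_of_eq ((pow_eq_one_iff_of_nonneg zero_le three_ne_zero).1 hg3.symm)
  obtain ⟨m, hm⟩ := v.exists_valuation_sub_lt_of_integer hg1 1
  rw [Units.val_one] at hm
  refine ⟨m, (v.valuation_lt_one_iff_mem (K := K) _).1 ?_⟩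
  change v.valuation K (algebraMap (𝓞 K) K (x - m ^ 3)) < 1
  rw [map_sub, map_pow]
  have hM1 : v.valuation K (algebraMap (𝓞 K) K m) ≤ 1 := v.valuation_le_one m
  set M := algebraMap (𝓞 K) K m with hM
  have e2 : algebraMap (𝓞 K) K x - M ^ 3 =
      (algebraMap (𝓞 K) K x - g ^ 3) - (M - g) * (g ^ 2 + g * M + M ^ 2) := by
    ring
  rw [e2]
  refine Valuation.map_sub_lt _ hg ?_
  rw [map_mul]
  calc _ ≤ v.valuation K (M - g) * 1 := by
        gcongr
        refine Valuation.map_add_le _ (Valuation.map_add_le _ ?_ ?_) ?_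
        · rw [map_pow]; exact pow_le_one' hg1 2
        · rw [map_mul]; exact mul_le_one' hg1 hM1
        · rw [map_pow]; exact pow_le_one' hM1 2
    _ < 1 := by rw [mul_one]; exact hm

/-- The last step: if all valuations of `A n^j` are cubes and the unit `u` with `A n^j = u r^3` is
a cube as soon as it is a cube modulo 3, then `A` is a power of `n` times a cube. -/
theorem strict_finish (hcl : ¬ 3 ∣ NumberField.classNumber K) {n : 𝓞 K} (hn0 : n ≠ 0)
    (hn3 : IsCoprime n 3) (hnc : ∃ c : 𝓞 K, 3 ∣ n - c ^ 3)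
    (A : 𝓞 K) (hA0 : A ≠ 0) (hA : StrictSelmer n A) (j : ℕ)
    (hunit : ∀ (u : (𝓞 K)ˣ) (r : K), r ≠ 0 → algebraMap (𝓞 K) K A * algebraMap (𝓞 K) K n ^ j =
      algebraMap (𝓞 K) K (u : 𝓞 K) * r ^ 3 → (∃ m : 𝓞 K, 3 ∣ (u : 𝓞 K) - m ^ 3) →
      ∃ w : (𝓞 K)ˣ, u = w ^ 3)
    (hj : ∀ v : HeightOneSpectrum (𝓞 K), ∃ w,
      v.valuation K (algebraMap (𝓞 K) K A * algebraMap (𝓞 K) K n ^ j) = w ^ 3) :
    SameClass (algebraMap (𝓞 K) K n) (algebraMap (𝓞 K) K A) 1 := by
  have hnK : algebraMap (𝓞 K) K n ≠ 0 := by simpa using hn0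
  have hAK : algebraMap (𝓞 K) K A ≠ 0 := by simpa using hA0
  obtain ⟨u, r, hr, hur⟩ := exists_unit_mul_cube hcl
    (algebraMap (𝓞 K) K A * algebraMap (𝓞 K) K n ^ j) (mul_ne_zero hAK (pow_ne_zero j hnK)) hj
  have hinv : algebraMap (𝓞 K) K (u : 𝓞 K) * algebraMap (𝓞 K) K ((u⁻¹ : (𝓞 K)ˣ) : 𝓞 K) = 1 := by
    rw [← map_mul, Units.mul_inv, map_one]
  have hr3 : r ^ 3 = algebraMap (𝓞 K) K (((u⁻¹ : (𝓞 K)ˣ) : 𝓞 K) * (A * n ^ j)) := by
    rw [map_mul, map_mul, map_pow, hur]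
    linear_combination (-r ^ 3) * hinv
  obtain ⟨ρ, hρ⟩ : ∃ ρ : 𝓞 K, algebraMap (𝓞 K) K ρ = r := by
    have hint : IsIntegral (𝓞 K) r := by
      refine IsIntegral.of_pow (n := 3) (by norm_num) ?_
      rw [hr3]
      exact isIntegral_algebraMap
    exact IsIntegrallyClosed.isIntegral_iff.1 hint
  have hAn : A * n ^ j = (u : 𝓞 K) * ρ ^ 3 := by
    apply IsFractionRing.injective (𝓞 K) K
    rw [map_mul, map_pow, map_mul, map_pow, hρ]
    exact hur
  have hu3 : ∃ m : 𝓞 K, 3 ∣ (u : 𝓞 K) - m ^ 3 := by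
    have hcop : IsCoprime ((u : 𝓞 K) * ρ ^ 3) 3 := by
      rw [← hAn]
      exact hA.coprime.mul_left hn3.pow_left
    have hρ3 : IsCoprime ρ 3 := by
      have h1 := hcop.of_mul_left_right
      exact (IsCoprime.pow_left_iff (by norm_num)).1 h1
    obtain ⟨x, y, hxy⟩ := hρ3
    obtain ⟨c, hc⟩ := hnc
    obtain ⟨m, hm⟩ := hA.three
    refine ⟨m * c ^ j * x, ?_⟩
    have h1 : (3 : 𝓞 K) ∣ n ^ j - (c ^ j) ^ 3 := by
      have h2 := sub_dvd_pow_sub_pow n (c ^ 3) j
      rw [← pow_mul, mul_comm 3 j, pow_mul] at h2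
      exact hc.trans h2
    have h2 : (3 : 𝓞 K) ∣ A * n ^ j - (m * c ^ j) ^ 3 := by
      have e : A * n ^ j - (m * c ^ j) ^ 3 = (A - m ^ 3) * n ^ j + m ^ 3 * (n ^ j - (c ^ j) ^ 3) := by
        ring
      rw [e]
      exact dvd_add (dvd_mul_of_dvd_left hm _) (dvd_mul_of_dvd_right h1 _)
    have h3 : (3 : 𝓞 K) ∣ ρ ^ 3 * x ^ 3 - 1 := by
      have e : ρ ^ 3 * x ^ 3 - 1 = 3 * (-(y * (x ^ 2 * ρ ^ 2 + x * ρ + 1))) := by
        have h4 : x * ρ = 1 - 3 * y := by linear_combination hxy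
        have h5 : ρ ^ 3 * x ^ 3 = (x * ρ) ^ 3 := by ring
        have h6 : x ^ 2 * ρ ^ 2 = (x * ρ) ^ 2 := by ring
        rw [h5, h6, h4]
        ring
      rw [e]
      exact dvd_mul_right _ _
    have e : (u : 𝓞 K) - (m * c ^ j * x) ^ 3 = (A * n ^ j - (m * c ^ j) ^ 3) * x ^ 3 -
        (u : 𝓞 K) * (ρ ^ 3 * x ^ 3 - 1) := by
      rw [hAn]
      ring
    rw [e]
    exact dvd_sub (dvd_mul_of_dvd_left h2 _) (dvd_mul_of_dvd_right h3 _)
  obtain ⟨w, hw⟩ := hunit u r hr hur hu3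
  have hw0 : algebraMap (𝓞 K) K (w : 𝓞 K) ≠ 0 := by simp
  refine ⟨2 * j, algebraMap (𝓞 K) K (w : 𝓞 K) * r / algebraMap (𝓞 K) K n ^ j,
    div_ne_zero (mul_ne_zero hw0 hr) (pow_ne_zero j hnK), ?_⟩
  have hnj : algebraMap (𝓞 K) K n ^ j ≠ 0 := pow_ne_zero j hnK
  rw [hw, Units.val_pow_eq_pow_val, map_pow] at hur
  rw [pow_mul', mul_one]
  field_simp
  linear_combination hur

/-- If `x y^j` and `x y^k` are cubes and `y` is not then `j = k` modulo 3. -/
theorem mod_three_of_cubes {x y : WithZero (Multiplicative ℤ)} (hx : x ≠ 0) (hy : y ≠ 0)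
    (hc : ¬ ∃ w, y = w ^ 3) {j k : ℕ} (h1 : ∃ w, x * y ^ j = w ^ 3) (h2 : ∃ w, x * y ^ k = w ^ 3) :
    (3 : ℤ) ∣ (j : ℤ) - k := by
  obtain ⟨w1, h1⟩ := h1
  obtain ⟨w2, h2⟩ := h2
  have hw1 : w1 ≠ 0 := by
    rintro rfl
    rw [zero_pow three_ne_zero] at h1
    exact mul_ne_zero hx (pow_ne_zero _ hy) h1
  have hw2 : w2 ≠ 0 := by
    rintro rfl
    rw [zero_pow three_ne_zero] at h2
    exact mul_ne_zero hx (pow_ne_zero _ hy) h2
  lift x to ℤ using hx with a
  lift y to ℤ using hy with b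
  lift w1 to ℤ using hw1 with d1
  lift w2 to ℤ using hw2 with d2
  have hb : ¬ (3 : ℤ) ∣ b := by
    rintro ⟨l, rfl⟩
    exact hc ⟨exp l, by rw [← exp_nsmul]; congr 1⟩
  rw [← exp_nsmul, ← exp_nsmul, ← exp_add, exp_inj] at h1 h2
  simp only [nsmul_eq_mul] at h1 h2
  push_cast at h1 h2
  have h3 : (3 : ℤ) ∣ ((j : ℤ) - k) * b := ⟨d1 - d2, by linear_combination h1 - h2⟩
  rcases Int.Prime.dvd_mul' Nat.prime_three (by exact_mod_cast h3) with h4 | h4
  · exact_mod_cast h4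
  · exact absurd (by exact_mod_cast h4) hb

/-- `n = p 0 ... p (s-1)`, where `p i` has exactly one place `q i` with `3 ∤ v (p i)` and the other
`p k` are units at `q i`. For `i + 1 < s` all units are cubes modulo `q i`, `p (i+1)` is not, and
`p k` for `k > i + 1` is a cube modulo `q i`. The units that are cubes modulo 3 and modulo all `q i`
are cubes. -/
def ManyBadPlaces (n : 𝓞 K) : Prop :=
  ∃ (s : ℕ) (p : ℕ → 𝓞 K) (q : ℕ → HeightOneSpectrum (𝓞 K)),
    n = ∏ i ∈ Finset.range s, p i ∧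
    (∀ i < s, ∀ v : HeightOneSpectrum (𝓞 K),
      (∃ w, v.valuation K (algebraMap (𝓞 K) K (p i)) = w ^ 3) ↔ v ≠ q i) ∧
    (∀ i < s, ∀ k < s, k ≠ i → p k ∉ (q i).asIdeal) ∧
    (∀ i, i + 1 < s → (∀ u : (𝓞 K)ˣ, ∃ m : 𝓞 K, (u : 𝓞 K) - m ^ 3 ∈ (q i).asIdeal) ∧
      (∀ m : 𝓞 K, p (i + 1) - m ^ 3 ∉ (q i).asIdeal) ∧
      ∀ k < s, i + 1 < k → ∃ m : 𝓞 K, p k - m ^ 3 ∈ (q i).asIdeal) ∧
    ∀ u : (𝓞 K)ˣ, (∃ m : 𝓞 K, 3 ∣ (u : 𝓞 K) - m ^ 3) →
      (∀ i < s, ∃ m : 𝓞 K, (u : 𝓞 K) - m ^ 3 ∈ (q i).asIdeal) → ∃ w : (𝓞 K)ˣ, u = w ^ 3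

theorem ManyBadPlaces.ne_zero {n : 𝓞 K} (h : ManyBadPlaces n) : n ≠ 0 := by
  obtain ⟨s, p, q, rfl, hval, -⟩ := h
  rw [Finset.prod_ne_zero_iff]
  intro i hi h0
  have h1 := hval i (Finset.mem_range.1 hi) (q i)
  rw [h0, map_zero, map_zero] at h1
  exact h1.1 ⟨0, by rw [zero_pow three_ne_zero]⟩ rfl

/-- The triangular criterion: class number prime to 3 and `ManyBadPlaces n`. Then the strict Selmer
group is generated by `n`. -/
theorem strictSelmer_many (hcl : ¬ 3 ∣ NumberField.classNumber K) {n : 𝓞 K}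
    (hn3 : IsCoprime n 3) (hnc : ∃ c : 𝓞 K, 3 ∣ n - c ^ 3) (hn : ManyBadPlaces n)
    (A : 𝓞 K) (hA0 : A ≠ 0) (hA : StrictSelmer n A) :
    SameClass (algebraMap (𝓞 K) K n) (algebraMap (𝓞 K) K A) 1 := by
  classical
  have hn0 : n ≠ 0 := hn.ne_zero
  obtain ⟨s, p, q, hprod, hpv, hpq, htri, hunit⟩ := hn
  have hnK : algebraMap (𝓞 K) K n ≠ 0 := by simpa using hn0
  have hAK : algebraMap (𝓞 K) K A ≠ 0 := by simpa using hA0
  have hp0 : ∀ i < s, p i ≠ 0 := by
    intro i hi h0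
    apply hn0
    rw [hprod]
    exact Finset.prod_eq_zero (Finset.mem_range.2 hi) h0
  have hp0K : ∀ i < s, algebraMap (𝓞 K) K (p i) ≠ 0 := fun i hi => by simpa using hp0 i hi
  -- the valuations of the primes
  have hself : ∀ i < s, ¬ ∃ w, (q i).valuation K (algebraMap (𝓞 K) K (p i)) = w ^ 3 :=
    fun i hi h => (hpv i hi (q i)).1 h rfl
  have hother : ∀ v : HeightOneSpectrum (𝓞 K), ∀ k < s, v ≠ q k →
      ∃ w, v.valuation K (algebraMap (𝓞 K) K (p k)) = w ^ 3 := fun v k hk hv => (hpv k hk v).2 hv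
  have hone : ∀ i < s, ∀ k < s, k ≠ i → (q i).valuation K (algebraMap (𝓞 K) K (p k)) = 1 :=
    fun i hi k hk hki => MP009fd8.val_eq_one _ (hpq i hi k hk hki)
  have hplace : ∀ i < s, ∀ k < s, k ≠ i → q i ≠ q k := by
    intro i hi k hk hki heq
    have h1 := hone i hi k hk hki
    rw [heq] at h1
    exact hself k hk ⟨1, by rw [h1, one_pow]⟩
  have hnval : ∀ i < s, (q i).valuation K (algebraMap (𝓞 K) K n) =
      (q i).valuation K (algebraMap (𝓞 K) K (p i)) := by
    intro i hi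
    rw [hprod, map_prod, map_prod, Finset.prod_eq_single i]
    · intro k hk hki
      exact hone i hi k (Finset.mem_range.1 hk) hki
    · intro h
      exact absurd (Finset.mem_range.2 hi) h
  have hprodcube : ∀ (v : HeightOneSpectrum (𝓞 K)) (T : Finset ℕ) (f : ℕ → K),
      (∀ k ∈ T, ∃ w, v.valuation K (f k) = w ^ 3) → ∃ w, v.valuation K (∏ k ∈ T, f k) = w ^ 3 := by
    intro v T f h
    choose! w hw using h
    refine ⟨∏ k ∈ T, w k, ?_⟩
    rw [map_prod, ← Finset.prod_pow]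
    exact Finset.prod_congr rfl hw
  have hncube : ∀ v : HeightOneSpectrum (𝓞 K), (∀ k < s, v ≠ q k) →
      ∃ w, v.valuation K (algebraMap (𝓞 K) K n) = w ^ 3 := by
    intro v hv
    rw [hprod, map_prod]
    exact hprodcube v _ _ fun k hk => hother v k (Finset.mem_range.1 hk)
      (hv k (Finset.mem_range.1 hk))
  have hmulcube : ∀ (v : HeightOneSpectrum (𝓞 K)) (x y : K), (∃ w, v.valuation K x = w ^ 3) →
      (∃ w, v.valuation K y = w ^ 3) → ∃ w, v.valuation K (x * y) = w ^ 3 := by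
    rintro v x y ⟨w, hw⟩ ⟨w', hw'⟩
    exact ⟨w * w', by rw [map_mul, hw, hw', mul_pow]⟩
  have hpowcube : ∀ (v : HeightOneSpectrum (𝓞 K)) (x : K) (l : ℕ),
      (∃ w, v.valuation K x = w ^ 3) → ∃ w, v.valuation K (x ^ l) = w ^ 3 := by
    rintro v x l ⟨w, hw⟩
    exact ⟨w ^ l, by rw [map_pow, hw, ← pow_mul, ← pow_mul, mul_comm 3 l]⟩
  -- the exponents
  have hbad : ∀ i < s, ∃ j : ℕ, NearCube ((q i).valuation K)
      (algebraMap (𝓞 K) K A * algebraMap (𝓞 K) K n ^ j) := by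
    intro i hi
    apply hA.bad
    rw [hnval i hi]
    exact hself i hi
  -- the exponent of the first prime
  obtain ⟨j, hj⟩ : ∃ j : ℕ, 0 < s → NearCube ((q 0).valuation K)
        (algebraMap (𝓞 K) K A * algebraMap (𝓞 K) K n ^ j) := by
    by_cases h0 : 0 < s
    · obtain ⟨j, hj⟩ := hbad 0 h0
      exact ⟨j, fun _ => hj⟩
    · exact ⟨0, fun h => absurd h h0⟩
  set B : K := algebraMap (𝓞 K) K A * algebraMap (𝓞 K) K n ^ j with hB
  have hB0 : B ≠ 0 := mul_ne_zero hAK (pow_ne_zero j hnK)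
  have hBgood : ∀ v : HeightOneSpectrum (𝓞 K), (∀ k < s, v ≠ q k) →
      ∃ w, v.valuation K B = w ^ 3 := by
    intro v hv
    exact hmulcube v _ _ (hA.good v (hncube v hv)) (hpowcube v _ j (hncube v hv))
  -- the induction
  have hind : ∀ i, i < s → NearCube ((q i).valuation K) B := by
    intro i
    induction i using Nat.strong_induction_on with
    | _ i ih =>
    intro hi
    rcases Nat.eq_zero_or_pos i with rfl | hpos
    · exact hj hi
    obtain ⟨i, rfl⟩ : ∃ i', i = i' + 1 := ⟨i - 1, by omega⟩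
    have hi' : i < s := by omega
    obtain ⟨hup, hnext, hlater⟩ := htri i hi
    -- the correcting exponents
    have hex : ∀ k : ℕ, ∃ a : ℕ, k < s → ∃ w,
        (q k).valuation K (B * algebraMap (𝓞 K) K (p k) ^ a) = w ^ 3 := by
      intro k
      by_cases hk : k < s
      · obtain ⟨a, w, -, hw⟩ := exists_pow_mul_cube
          ((Valuation.ne_zero_iff ((q k).valuation K)).2 hB0)
          ((Valuation.ne_zero_iff ((q k).valuation K)).2 (hp0K k hk)) (hself k hk)
        exact ⟨a, fun _ => ⟨w, by rw [map_mul, map_pow, hw]⟩⟩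
      · exact ⟨0, fun h => absurd h hk⟩
    choose a ha using hex
    set R : K := ∏ k ∈ Finset.Ioo i s, algebraMap (𝓞 K) K (p k) ^ a k with hR
    have hR0 : R ≠ 0 := by
      rw [hR, Finset.prod_ne_zero_iff]
      intro k hk
      exact pow_ne_zero _ (hp0K k (Finset.mem_Ioo.1 hk).2)
    obtain ⟨u, r, hr, hur⟩ := exists_unit_mul_cube hcl (B * R) (mul_ne_zero hB0 hR0) (by
      intro v
      by_cases hv : ∃ k, k < s ∧ v = q k
      · obtain ⟨k, hk, rfl⟩ := hv
        by_cases hik : i < k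
        · have hRk : (q k).valuation K R =
              (q k).valuation K (algebraMap (𝓞 K) K (p k) ^ a k) := by
            rw [hR, map_prod, Finset.prod_eq_single k]
            · intro l hl hlk
              rw [map_pow, hone k hk l (Finset.mem_Ioo.1 hl).2 hlk, one_pow]
            · intro h
              exact absurd (Finset.mem_Ioo.2 ⟨hik, hk⟩) h
          rw [map_mul, hRk, ← map_mul]
          exact ha k hk
        · have hRk : (q k).valuation K R = 1 := by
            rw [hR, map_prod]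
            refine Finset.prod_eq_one fun l hl => ?_
            obtain ⟨hl1, hl2⟩ := Finset.mem_Ioo.1 hl
            rw [map_pow, hone k hk l hl2 (by omega), one_pow]
          rw [map_mul, hRk, mul_one]
          obtain ⟨g, hg⟩ := ih k (by omega) hk
          exact ⟨_, nearCube_val hg⟩
      · have hv' : ∀ k < s, v ≠ q k := fun k hk h => hv ⟨k, hk, h⟩
        refine hmulcube v _ _ (hBgood v hv') ?_
        rw [hR]
        refine hprodcube v _ _ fun k hk => hpowcube v _ _ ?_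
        exact hother v k (Finset.mem_Ioo.1 hk).2 (hv' k (Finset.mem_Ioo.1 hk).2))
    -- at the place q i
    have hBv : NearCube ((q i).valuation K) B := ih i (by omega) hi'
    have hunotmem : (u : 𝓞 K) ∉ (q i).asIdeal := by
      intro h
      exact (q i).isPrime.ne_top (Ideal.eq_top_of_isUnit_mem _ h u.isUnit)
    have huv : NearCube ((q i).valuation K) (algebraMap (𝓞 K) K (u : 𝓞 K)) :=
      nearCube_of_int (q i) hunotmem (hup u)
    have hRv : NearCube ((q i).valuation K) R := by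
      have h1 : NearCube ((q i).valuation K) (R * B) := by
        rw [mul_comm, hur]
        exact huv.mul (nearCube_pow_three hr)
      exact h1.of_mul hBv
    have hsplit : R = algebraMap (𝓞 K) K (p (i + 1)) ^ a (i + 1) *
        ∏ k ∈ Finset.Ioo (i + 1) s, algebraMap (𝓞 K) K (p k) ^ a k := by
      have hins : Finset.Ioo i s = insert (i + 1) (Finset.Ioo (i + 1) s) := by
        ext k
        rw [Finset.mem_insert, Finset.mem_Ioo, Finset.mem_Ioo]
        omega
      rw [hR, hins, Finset.prod_insert (by simp)]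
    have hrest : NearCube ((q i).valuation K)
        (∏ k ∈ Finset.Ioo (i + 1) s, algebraMap (𝓞 K) K (p k) ^ a k) := by
      apply nearCube_prod
      intro k hk
      obtain ⟨hk1, hk2⟩ := Finset.mem_Ioo.1 hk
      apply NearCube.pow
      exact nearCube_of_int (q i) (hpq i hi' k hk2 (by omega)) (hlater k hk2 hk1)
    have hnextv : NearCube ((q i).valuation K) (algebraMap (𝓞 K) K (p (i + 1)) ^ a (i + 1)) := by
      rw [hsplit] at hRv
      exact hRv.of_mul hrest
    have hnot : ¬ NearCube ((q i).valuation K) (algebraMap (𝓞 K) K (p (i + 1))) := by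
      intro h
      obtain ⟨m, hm⟩ := nearCube_int (q i) (hpq i hi' (i + 1) hi (by omega)) h
      exact hnext m hm
    have h3a : 3 ∣ a (i + 1) := by
      by_contra h3
      apply hnot
      have hmod : a (i + 1) % 3 = 1 ∨ a (i + 1) % 3 = 2 := by omega
      rcases hmod with hmod | hmod
      · obtain ⟨b, hb⟩ : ∃ b, a (i + 1) = 3 * b + 1 := ⟨a (i + 1) / 3, by omega⟩
        have e : algebraMap (𝓞 K) K (p (i + 1)) ^ a (i + 1) =
            algebraMap (𝓞 K) K (p (i + 1)) * (algebraMap (𝓞 K) K (p (i + 1)) ^ b) ^ 3 := by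
          rw [hb]; ring
        rw [e] at hnextv
        exact hnextv.of_mul (nearCube_pow_three (pow_ne_zero b (hp0K _ hi)))
      · obtain ⟨b, hb⟩ : ∃ b, a (i + 1) = 3 * b + 2 := ⟨a (i + 1) / 3, by omega⟩
        have h2 := hnextv.mul hnextv
        have e : algebraMap (𝓞 K) K (p (i + 1)) ^ a (i + 1) *
            algebraMap (𝓞 K) K (p (i + 1)) ^ a (i + 1) =
            algebraMap (𝓞 K) K (p (i + 1)) * (algebraMap (𝓞 K) K (p (i + 1)) ^ (2 * b + 1)) ^ 3 := by
          rw [hb]; ring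
        rw [e] at h2
        exact h2.of_mul (nearCube_pow_three (pow_ne_zero _ (hp0K _ hi)))
    -- at the place q (i+1): the valuation of B is a cube
    obtain ⟨b, hb⟩ := h3a
    have hBcube : ∃ w, (q (i + 1)).valuation K (algebraMap (𝓞 K) K A) *
        (q (i + 1)).valuation K (algebraMap (𝓞 K) K n) ^ j = w ^ 3 := by
      obtain ⟨w, hw⟩ := ha (i + 1) hi
      have hy0 : (q (i + 1)).valuation K (algebraMap (𝓞 K) K (p (i + 1)) ^ b) ≠ 0 :=
        (Valuation.ne_zero_iff _).2 (pow_ne_zero b (hp0K _ hi))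
      refine ⟨w / (q (i + 1)).valuation K (algebraMap (𝓞 K) K (p (i + 1)) ^ b), ?_⟩
      rw [hb, mul_comm 3 b, pow_mul, map_mul, map_pow _ _ 3] at hw
      rw [div_pow, eq_div_iff (pow_ne_zero 3 hy0), ← hw, hB, map_mul, map_pow, map_pow]
    obtain ⟨j', hj'⟩ := hbad (i + 1) hi
    have hj'cube : ∃ w, (q (i + 1)).valuation K (algebraMap (𝓞 K) K A) *
        (q (i + 1)).valuation K (algebraMap (𝓞 K) K n) ^ j' = w ^ 3 := by
      obtain ⟨g, hg⟩ := hj'
      refine ⟨_, (?_ : _ = (q (i + 1)).valuation K g ^ 3)⟩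
      rw [← nearCube_val hg, map_mul, map_pow]
    have hjj : (3 : ℤ) ∣ (j' : ℤ) - j := by
      refine mod_three_of_cubes ((Valuation.ne_zero_iff _).2 hAK) ((Valuation.ne_zero_iff _).2 hnK)
        ?_ hj'cube hBcube
      rw [hnval (i + 1) hi]
      exact hself (i + 1) hi
    have e : B * (algebraMap (𝓞 K) K n ^ (j' + 2 * j)) =
        (algebraMap (𝓞 K) K A * algebraMap (𝓞 K) K n ^ j') * (algebraMap (𝓞 K) K n ^ j) ^ 3 := by
      rw [hB]; ring
    obtain ⟨d, hd⟩ : ∃ d : ℕ, j' + 2 * j = 3 * d := by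
      refine ⟨(j' + 2 * j) / 3, ?_⟩
      omega
    have h4 : NearCube ((q (i + 1)).valuation K) (B * (algebraMap (𝓞 K) K n ^ d) ^ 3) := by
      rw [← pow_mul, mul_comm d 3, ← hd, e]
      exact hj'.mul (nearCube_pow_three (pow_ne_zero j hnK))
    exact h4.of_mul (nearCube_pow_three (pow_ne_zero d hnK))
  refine strict_finish hcl hn0 hn3 hnc A hA0 hA j (fun u r hr hur hu3 => ?_) fun v => ?_
  · refine hunit u hu3 fun i hi => ?_
    have hunotmem : (u : 𝓞 K) ∉ (q i).asIdeal := by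
      intro h
      exact (q i).isPrime.ne_top (Ideal.eq_top_of_isUnit_mem _ h u.isUnit)
    apply nearCube_int (q i) hunotmem
    have h1 := hind i hi
    rw [hB, hur] at h1
    exact h1.of_mul (nearCube_pow_three hr)
  · by_cases hv : ∃ k, k < s ∧ v = q k
    · obtain ⟨k, hk, rfl⟩ := hv
      obtain ⟨g, hg⟩ := hind k hk
      exact ⟨_, nearCube_val hg⟩
    · exact hBgood v fun k hk h => hv ⟨k, hk, h⟩

end Pool.Agent.MP009fd8T
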