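import Mathlib

/-!
MP_009fd8_ag, the case p = 3: descent by the endomorphism sqrt(-3) of the curves
x^3 + y^3 = n z^3 over number fields containing the cube roots of unity. Definitions and the
algebra of the coverings.
-/

namespace Pool.Agent.MP009fd8T

open IsDedekindDomain NumberField

/-- The covering C_a of the elliptic curve x^3 + y^3 = n z^3, given by
a x^3 + a^2 y^3 = n z^3, has a point over the field F. -/
def HasPoint {F : Type*} [Field F] (n a : F) : Prop :=
  ∃ x y z : F, (x ≠ 0 ∨ y ≠ 0 ∨ z ≠ 0) ∧ a * x ^ 3 + a ^ 2 * y ^ 3 = n * z ^ 3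

/-- The covering C_a of x^3 + y^3 = n z^3 is everywhere locally soluble over the number field K
(which will contain the cube roots of unity, so that all its infinite places are complex):
it has a point over the completion of K at every finite place. -/
def LocallySoluble (K : Type*) [Field K] [NumberField K] (n a : K) : Prop :=
  ∀ v : HeightOneSpectrum (𝓞 K), HasPoint (algebraMap K (v.adicCompletion K) n)
    (algebraMap K (v.adicCompletion K) a)

/-- a and b have the same class modulo cubes and powers of n. -/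
def SameClass {F : Type*} [Field F] (n a b : F) : Prop :=
  ∃ (j : ℕ) (r : F), r ≠ 0 ∧ a = n ^ j * b * r ^ 3

/-- Functoriality. -/
theorem HasPoint.map {F G : Type*} [Field F] [Field G] (f : F →+* G) {n a : F}
    (h : HasPoint n a) : HasPoint (f n) (f a) := by
  obtain ⟨x, y, z, h0, h1⟩ := h
  refine ⟨f x, f y, f z, ?_, ?_⟩
  · rcases h0 with h0 | h0 | h0
    · exact Or.inl ((map_ne_zero f).2 h0)
    · exact Or.inr (Or.inl ((map_ne_zero f).2 h0))
    · exact Or.inr (Or.inr ((map_ne_zero f).2 h0))
  · have h2 := congrArg f h1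
    simpa using h2

/-- Rescaling by cubes. -/
theorem HasPoint.of_mul_cube {F : Type*} [Field F] {n a r : F} (hr : r ≠ 0)
    (h : HasPoint n (a * r ^ 3)) : HasPoint n a := by
  obtain ⟨x, y, z, h0, h1⟩ := h
  refine ⟨r * x, r ^ 2 * y, z, ?_, ?_⟩
  · rcases h0 with h0 | h0 | h0
    · exact Or.inl (mul_ne_zero hr h0)
    · exact Or.inr (Or.inl (mul_ne_zero (pow_ne_zero 2 hr) h0))
    · exact Or.inr (Or.inr h0)
  · linear_combination h1

theorem HasPoint.mul_cube {F : Type*} [Field F] {n a r : F} (hr : r ≠ 0)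
    (h : HasPoint n a) : HasPoint n (a * r ^ 3) := by
  refine HasPoint.of_mul_cube (r := r⁻¹) (inv_ne_zero hr) ?_
  have h1 : a * r ^ 3 * r⁻¹ ^ 3 = a := by
    field_simp
  rw [h1]
  exact h

/-- Cyclic permutation: C_a and C_(n a) are isomorphic. -/
theorem HasPoint.mul_n {F : Type*} [Field F] {n a : F} (ha : a ≠ 0)
    (h : HasPoint n a) : HasPoint n (n * a) := by
  obtain ⟨x, y, z, h0, h1⟩ := h
  refine ⟨-(a * y), z, a * x, ?_, ?_⟩
  · rcases h0 with h0 | h0 | h0
    · exact Or.inr (Or.inr (mul_ne_zero ha h0))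
    · exact Or.inl (neg_ne_zero.2 (mul_ne_zero ha h0))
    · exact Or.inr (Or.inl h0)
  · linear_combination (-(n * a ^ 2)) * h1

theorem HasPoint.mul_n_pow {F : Type*} [Field F] {n a : F} (hn : n ≠ 0) (ha : a ≠ 0)
    (h : HasPoint n a) (j : ℕ) : HasPoint n (n ^ j * a) := by
  induction j with
  | zero => simpa using h
  | succ k ih =>
    have h1 : n ^ (k + 1) * a = n * (n ^ k * a) := by ring
    rw [h1]
    exact ih.mul_n (mul_ne_zero (pow_ne_zero k hn) ha)

/-- Having a point only depends on the class. -/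
theorem HasPoint.of_sameClass {F : Type*} [Field F] {n a b : F} (hn : n ≠ 0) (hb : b ≠ 0)
    (h : SameClass n a b) (hp : HasPoint n b) : HasPoint n a := by
  obtain ⟨j, r, hr, rfl⟩ := h
  exact (hp.mul_n_pow hn hb j).mul_cube hr

theorem SameClass.symm {F : Type*} [Field F] {n a b : F} (hn : n ≠ 0)
    (h : SameClass n a b) : SameClass n b a := by
  obtain ⟨j, r, hr, rfl⟩ := h
  refine ⟨2 * j, (n ^ j * r)⁻¹, inv_ne_zero (mul_ne_zero (pow_ne_zero j hn) hr), ?_⟩
  have hnj : n ^ j ≠ 0 := pow_ne_zero j hn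
  rw [pow_mul', inv_pow]
  field_simp

theorem SameClass.trans {F : Type*} [Field F] {n a b c : F}
    (h : SameClass n a b) (h' : SameClass n b c) : SameClass n a c := by
  obtain ⟨j, r, hr, rfl⟩ := h
  obtain ⟨k, s, hs, rfl⟩ := h'
  exact ⟨j + k, r * s, mul_ne_zero hr hs, by rw [pow_add]; ring⟩

/-- Everywhere local solubility follows from the existence of a point. -/
theorem HasPoint.locallySoluble {K : Type*} [Field K] [NumberField K] {n a : K}
    (h : HasPoint n a) : LocallySoluble K n a := fun _ => h.map _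

theorem LocallySoluble.of_sameClass {K : Type*} [Field K] [NumberField K] {n a b : K}
    (hn : n ≠ 0) (hb : b ≠ 0) (h : SameClass n a b) (hp : LocallySoluble K n b) :
    LocallySoluble K n a := by
  intro v
  refine HasPoint.of_sameClass ((map_ne_zero _).2 hn) ((map_ne_zero _).2 hb) ?_ (hp v)
  obtain ⟨j, r, hr, rfl⟩ := h
  exact ⟨j, algebraMap K (v.adicCompletion K) r, (map_ne_zero _).2 hr, by simp⟩

/-- The trivial class has a point. -/
theorem hasPoint_cube {F : Type*} [Field F] (n r : F) : HasPoint n (r ^ 3) :=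
  ⟨-r, 1, 0, Or.inr (Or.inl one_ne_zero), by ring⟩

end Pool.Agent.MP009fd8T
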