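import Pool.Agent.Lib.MP_009fd8_agT.Crit3

/-!
MP_009fd8_ag, p = 3: the bound for the Selmer group and the final form.
-/

namespace Pool.Agent.MP009fd8T

open IsDedekindDomain NumberField WithZero

variable {K : Type*} [Field K] [NumberField K]

/-- The solutions of `s^3 = (1 + e) s` in the finite ring `𝓞 K / (θ)`. -/
def LocalClasses (θ e : 𝓞 K) : Type _ :=
  {s : 𝓞 K ⧸ Ideal.span {θ} // s ^ 3 = (1 + Ideal.Quotient.mk (Ideal.span {θ}) e) * s}

/-- `n` has exactly one place `q` with `3 ∤ v(n)`, and the units that are cubes modulo 3 and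
modulo `q` are cubes. -/
def OneBadPlace (n : 𝓞 K) : Prop :=
  ∃ q : HeightOneSpectrum (𝓞 K),
    (∀ v : HeightOneSpectrum (𝓞 K),
      (∃ w, v.valuation K (algebraMap (𝓞 K) K n) = w ^ 3) ↔ v ≠ q) ∧
    ∀ u : (𝓞 K)ˣ, (∃ m : 𝓞 K, 3 ∣ (u : 𝓞 K) - m ^ 3) →
      (∃ m : 𝓞 K, (u : 𝓞 K) - m ^ 3 ∈ q.asIdeal) → ∃ w : (𝓞 K)ˣ, u = w ^ 3

/-- Upper bound: pairwise inequivalent locally soluble classes are at most as many as the
local classes. -/
theorem card_le {θ n c e : 𝓞 K} (hθ : θ ^ 2 = -3)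
    (hunr : ∀ v : HeightOneSpectrum (𝓞 K), θ ∉ v.asIdeal ^ 2) (hn0 : n ≠ 0)
    (hn : 3 * θ ∣ n - c ^ 3 * (1 + 3 * e)) (hn3 : IsCoprime n 3)
    (hS : ∀ A : 𝓞 K, A ≠ 0 → StrictSelmer n A →
      SameClass (algebraMap (𝓞 K) K n) (algebraMap (𝓞 K) K A) 1)
    (S : Finset K) (hS0 : ∀ p ∈ S, p ≠ 0)
    (hSl : ∀ p ∈ S, LocallySoluble K (algebraMap (𝓞 K) K n) p)
    (hSne : ∀ p ∈ S, ∀ p' ∈ S, SameClass (algebraMap (𝓞 K) K n) p p' → p = p') :
    S.card ≤ Nat.card (LocalClasses θ e) := by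
  classical
  have hθ0 : θ ≠ 0 := by
    rintro rfl
    rw [zero_pow two_ne_zero] at hθ
    have h30 : (3 : 𝓞 K) = 0 := by linear_combination hθ
    exact (OfNat.ofNat_ne_zero 3 : (3 : 𝓞 K) ≠ 0) h30
  have hfin : Finite (𝓞 K ⧸ Ideal.span {θ}) :=
    Ideal.finiteQuotientOfFreeOfNeBot _ (by simpa using hθ0)
  have hfin' : Finite (LocalClasses θ e) := by
    unfold LocalClasses
    infer_instance
  have hdata : ∀ p : S, ∃ (r : K) (A α s : 𝓞 K), r ≠ 0 ∧ IsCoprime A 3 ∧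
      algebraMap (𝓞 K) K A = p * r ^ 3 ∧
      LocallySoluble K (algebraMap (𝓞 K) K n) (algebraMap (𝓞 K) K A) ∧
      3 ∣ A - α ^ 3 * (1 + θ * s) ∧ θ ∣ s ^ 3 - (1 + e) * s := fun p =>
    exists_data hθ hunr hn0 hn hn3 (hS0 p p.2) (hSl p p.2)
  choose r A α s hr hA hAr hlA h1 h2 using hdata
  have hV : ∀ x : 𝓞 K, θ ∣ x ^ 3 - (1 + e) * x → (Ideal.Quotient.mk (Ideal.span {θ}) x) ^ 3 =
      (1 + Ideal.Quotient.mk _ e) * Ideal.Quotient.mk (Ideal.span {θ}) x := by
    intro x hx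
    rw [← Ideal.mem_span_singleton, ← Ideal.Quotient.eq_zero_iff_mem] at hx
    rw [← sub_eq_zero, ← hx]
    simp only [map_sub, map_mul, map_pow, map_add, map_one]
  let f : S → LocalClasses θ e := fun p => ⟨Ideal.Quotient.mk _ (s p), hV _ (h2 p)⟩
  have hdvd : ∀ x y : 𝓞 K, Ideal.Quotient.mk (Ideal.span {θ}) x = Ideal.Quotient.mk _ y →
      θ ∣ x - y := by
    intro x y hxy
    rw [← Ideal.mem_span_singleton]
    exact Ideal.Quotient.eq.1 hxy
  have hinj : Function.Injective f := by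
    intro p p' hpp
    have h3 := congrArg Subtype.val hpp
    have h4 := sameClass_of_same hθ hn0 hS (hS0 p p.2) (hS0 p' p'.2) (hr p) (hr p') (hA p) (hA p')
      (hAr p) (hAr p') (hlA p) (hlA p') (h1 p) (h1 p') (hdvd _ _ h3)
    exact Subtype.ext (hSne p p.2 p' p'.2 h4)
  have h5 := Nat.card_le_card_of_injective f hinj
  rwa [Nat.card_eq_fintype_card (α := S), Fintype.card_coe] at h5

/-- The final form. -/
theorem final {θ n c e : 𝓞 K} (hθ : θ ^ 2 = -3)
    (hunr : ∀ v : HeightOneSpectrum (𝓞 K), θ ∉ v.asIdeal ^ 2)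
    (hn : 3 * θ ∣ n - c ^ 3 * (1 + 3 * e)) (hn3 : IsCoprime n 3)
    (hS : (¬ 3 ∣ NumberField.classNumber K ∧ OneBadPlace n) ∨
      (n ≠ 0 ∧ ∀ A : 𝓞 K, A ≠ 0 → StrictSelmer n A →
        SameClass (algebraMap (𝓞 K) K n) (algebraMap (𝓞 K) K A) 1))
    (P : Finset K) (hP0 : ∀ p ∈ P, p ≠ 0 ∧ HasPoint (algebraMap (𝓞 K) K n) p)
    (hPne : ∀ p ∈ P, ∀ p' ∈ P, SameClass (algebraMap (𝓞 K) K n) p p' → p = p')
    (hcard : Nat.card (LocalClasses θ e) ≤ P.card) (a : K) (ha : a ≠ 0) :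
    (LocallySoluble K (algebraMap (𝓞 K) K n) a ↔ HasPoint (algebraMap (𝓞 K) K n) a) ∧
      (HasPoint (algebraMap (𝓞 K) K n) a ↔
        ∃ p ∈ P, SameClass (algebraMap (𝓞 K) K n) a p) := by
  classical
  have hn0 : n ≠ 0 := by
    rintro rfl
    rw [isCoprime_zero_left] at hn3
    -- 3 is a unit
    rcases hS with ⟨-, q, hq, -⟩ | ⟨h, -⟩
    · apply (hq q).1 ⟨0, by simp⟩ rfl
    · exact h rfl
  have hnK : algebraMap (𝓞 K) K n ≠ 0 := by simpa using hn0
  have hS' : ∀ A : 𝓞 K, A ≠ 0 → StrictSelmer n A →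
      SameClass (algebraMap (𝓞 K) K n) (algebraMap (𝓞 K) K A) 1 := by
    rcases hS with ⟨hcl, q, hq, hunit⟩ | ⟨-, h⟩
    · exact fun A hA0 hA => strictSelmer_trivial hcl hn0 hn3
        ⟨c, by
          obtain ⟨k, hk⟩ := hn
          exact ⟨θ * k + c ^ 3 * e, by linear_combination hk⟩⟩ q
        (fun h => (hq q).1 h rfl) (fun v hv => (hq v).2 hv) hunit A hA0 hA
    · exact h
  have key : LocallySoluble K (algebraMap (𝓞 K) K n) a →
      ∃ p ∈ P, SameClass (algebraMap (𝓞 K) K n) a p := by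
    intro hl
    by_contra hcon
    push Not at hcon
    have haP : a ∉ P := fun h => hcon a h ⟨0, 1, one_ne_zero, by ring⟩
    have h1 := card_le hθ hunr hn0 hn hn3 hS' (insert a P)
      (by
        intro p hp
        rcases Finset.mem_insert.1 hp with rfl | hp
        · exact ha
        · exact (hP0 p hp).1)
      (by
        intro p hp
        rcases Finset.mem_insert.1 hp with rfl | hp
        · exact hl
        · exact (hP0 p hp).2.locallySoluble)
      (by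
        intro p hp p' hp' h
        rcases Finset.mem_insert.1 hp with h1 | h1
        · rcases Finset.mem_insert.1 hp' with h2 | h2
          · rw [h1, h2]
          · rw [h1] at h
            exact absurd h (hcon p' h2)
        · rcases Finset.mem_insert.1 hp' with h2 | h2
          · rw [h2] at h
            exact absurd (h.symm hnK) (hcon p h1)
          · exact hPne p h1 p' h2 h)
    rw [Finset.card_insert_of_notMem haP] at h1
    omega
  have key2 : (∃ p ∈ P, SameClass (algebraMap (𝓞 K) K n) a p) →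
      HasPoint (algebraMap (𝓞 K) K n) a := by
    rintro ⟨p, hp, h⟩
    exact (hP0 p hp).2.of_sameClass hnK (hP0 p hp).1 h
  exact ⟨⟨fun h => key2 (key h), HasPoint.locallySoluble⟩,
    ⟨fun h => key h.locallySoluble, key2⟩⟩

end Pool.Agent.MP009fd8T
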