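import Pool.Agent.Lib.MP_009fd8_agT.Final3
import Pool.Agent.Lib.MP_009fd8_agT.Crit3c

/-!
MP_009fd8_ag, p = 3: the final form with any number of bad places.
-/

namespace Pool.Agent.MP009fd8T

open IsDedekindDomain NumberField WithZero

variable {K : Type*} [Field K] [NumberField K]

/-- One bad place is a special case. -/
theorem OneBadPlace.many {n : 𝓞 K} (h : OneBadPlace n) : ManyBadPlaces n := by
  obtain ⟨q, hq, hu⟩ := h
  refine ⟨1, fun _ => n, fun _ => q, by simp, fun i _ v => hq v, ?_, ?_, ?_⟩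
  · intro i hi k hk hki
    omega
  · intro i hi
    omega
  · intro u h3 hcube
    exact hu u h3 (hcube 0 one_pos)

/-- The final form. -/
theorem final_many {θ n c e : 𝓞 K} (hθ : θ ^ 2 = -3)
    (hunr : ∀ v : HeightOneSpectrum (𝓞 K), θ ∉ v.asIdeal ^ 2)
    (hn : 3 * θ ∣ n - c ^ 3 * (1 + 3 * e)) (hn3 : IsCoprime n 3)
    (hS : (¬ 3 ∣ NumberField.classNumber K ∧ ManyBadPlaces n) ∨
      (n ≠ 0 ∧ ∀ A : 𝓞 K, A ≠ 0 → StrictSelmer n A →
        SameClass (algebraMap (𝓞 K) K n) (algebraMap (𝓞 K) K A) 1))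
    (P : Finset K) (hP0 : ∀ p ∈ P, p ≠ 0 ∧ HasPoint (algebraMap (𝓞 K) K n) p)
    (hPne : ∀ p ∈ P, ∀ p' ∈ P, SameClass (algebraMap (𝓞 K) K n) p p' → p = p')
    (hcard : Nat.card (LocalClasses θ e) ≤ P.card) (a : K) (ha : a ≠ 0) :
    (LocallySoluble K (algebraMap (𝓞 K) K n) a ↔ HasPoint (algebraMap (𝓞 K) K n) a) ∧
      (HasPoint (algebraMap (𝓞 K) K n) a ↔
        ∃ p ∈ P, SameClass (algebraMap (𝓞 K) K n) a p) := by
  classical
  have hn0 : n ≠ 0 := by
    rcases hS with ⟨-, h⟩ | ⟨h, -⟩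
    · exact h.ne_zero
    · exact h
  have hnK : algebraMap (𝓞 K) K n ≠ 0 := by simpa using hn0
  have hS' : ∀ A : 𝓞 K, A ≠ 0 → StrictSelmer n A →
      SameClass (algebraMap (𝓞 K) K n) (algebraMap (𝓞 K) K A) 1 := by
    rcases hS with ⟨hcl, hmany⟩ | ⟨-, h⟩
    · exact fun A hA0 hA => strictSelmer_many hcl hn3
        ⟨c, by
          obtain ⟨k, hk⟩ := hn
          exact ⟨θ * k + c ^ 3 * e, by linear_combination hk⟩⟩ hmany A hA0 hA
    · exact h
  have key : LocallySoluble K (algebraMap (𝓞 K) K n) a →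
      ∃ p ∈ P, SameClass (algebraMap (𝓞 K) K n) a p := by
    intro hl
    by_contra hcon
    push Not at hcon
    have haP : a ∉ P := fun h => hcon a h ⟨0, 1, one_ne_zero, by ring⟩
    have h1 := card_le hθ hunr hn0 hn hn3 hS' (insert a P)
      (by
        intro p hp
        rcases Finset.mem_insert.1 hp with rfl | hp
        · exact ha
        · exact (hP0 p hp).1)
      (by
        intro p hp
        rcases Finset.mem_insert.1 hp with rfl | hp
        · exact hl
        · exact (hP0 p hp).2.locallySoluble)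
      (by
        intro p hp p' hp' h
        rcases Finset.mem_insert.1 hp with h1 | h1
        · rcases Finset.mem_insert.1 hp' with h2 | h2
          · rw [h1, h2]
          · rw [h1] at h
            exact absurd h (hcon p' h2)
        · rcases Finset.mem_insert.1 hp' with h2 | h2
          · rw [h2] at h
            exact absurd (h.symm hnK) (hcon p h1)
          · exact hPne p h1 p' h2 h)
    rw [Finset.card_insert_of_notMem haP] at h1
    omega
  have key2 : (∃ p ∈ P, SameClass (algebraMap (𝓞 K) K n) a p) →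
      HasPoint (algebraMap (𝓞 K) K n) a := by
    rintro ⟨p, hp, h⟩
    exact (hP0 p hp).2.of_sameClass hnK (hP0 p hp).1 h
  exact ⟨⟨fun h => key2 (key h), HasPoint.locallySoluble⟩,
    ⟨fun h => key h.locallySoluble, key2⟩⟩

end Pool.Agent.MP009fd8T
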