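import Pool.Agent.Lib.MP_009fd8_agT.AtThree

/-!
MP_009fd8_ag, p = 3: the global form of the conditions above 3.
-/

namespace Pool.Agent.MP009fd8T

open IsDedekindDomain NumberField WithZero Pool.Agent.MP009fd8

variable {K : Type*} [Field K] [NumberField K]

/-- The valuation of theta above 3. -/
theorem val_theta (v : HeightOneSpectrum (𝓞 K)) (θ : 𝓞 K) (h1 : θ ∈ v.asIdeal)
    (h2 : θ ∉ v.asIdeal ^ 2) : v.valuation K (algebraMap (𝓞 K) K θ) = exp (-1 : ℤ) := by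
  have h3 : v.valuation K (algebraMap (𝓞 K) K θ) ≤ exp (-1 : ℤ) :=
    le_of_lt_one ((v.valuation_lt_one_iff_mem (K := K) θ).2 h1)
  have h4 : ¬ v.valuation K (algebraMap (𝓞 K) K θ) ≤ exp (-((2 : ℕ) : ℤ)) := by
    rw [HeightOneSpectrum.valuation_of_algebraMap,
      HeightOneSpectrum.intValuation_le_pow_iff_mem]
    exact h2
  have h0 : v.valuation K (algebraMap (𝓞 K) K θ) ≠ 0 := by
    intro h
    rw [h] at h4
    exact h4 zero_le
  generalize v.valuation K (algebraMap (𝓞 K) K θ) = x at h3 h4 h0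
  lift x to ℤ using h0 with m
  · rw [exp_le_exp] at h3 h4
    rw [exp_inj]
    push_cast at h4
    omega

/-- Divisibility by theta can be checked modulo the places above 3. -/
theorem theta_dvd (θ : 𝓞 K) (hθ : θ ≠ 0) (hunr : ∀ v : HeightOneSpectrum (𝓞 K), θ ∉ v.asIdeal ^ 2)
    (r : 𝓞 K) (h : ∀ v : HeightOneSpectrum (𝓞 K), θ ∈ v.asIdeal → r ∈ v.asIdeal) : θ ∣ r := by
  have hθK : algebraMap (𝓞 K) K θ ≠ 0 := by simpa using hθ
  have h1 : ∀ v : HeightOneSpectrum (𝓞 K),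
      v.valuation K (algebraMap (𝓞 K) K r / algebraMap (𝓞 K) K θ) ≤ 1 := by
    intro v
    rw [map_div₀]
    refine div_le_one_of_le₀ ?_ zero_le
    by_cases hv : θ ∈ v.asIdeal
    · rw [val_theta v θ hv (hunr v)]
      exact le_of_lt_one ((v.valuation_lt_one_iff_mem (K := K) r).2 (h v hv))
    · rw [val_eq_one v hv]
      exact v.valuation_le_one r
  obtain ⟨k, hk⟩ := HeightOneSpectrum.mem_integers_of_valuation_le_one K _ h1
  refine ⟨k, ?_⟩
  apply FaithfulSMul.algebraMap_injective (𝓞 K) K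
  rw [map_mul, hk]
  field_simp

/-- Every element is a cube modulo theta. -/
theorem frob_theta (θ : 𝓞 K) (hθ : θ ^ 2 = -3)
    (hunr : ∀ v : HeightOneSpectrum (𝓞 K), θ ∉ v.asIdeal ^ 2) (A : 𝓞 K) :
    ∃ α t : 𝓞 K, A = α ^ 3 + θ * t := by
  have hθ0 : θ ≠ 0 := by
    rintro rfl
    rw [zero_pow two_ne_zero] at hθ
    have h3 : (3 : 𝓞 K) = 0 := by linear_combination hθ
    have h4 := congrArg (algebraMap (𝓞 K) K) h3
    rw [map_ofNat, map_zero] at h4
    exact three_ne_zero h4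
  have hbot : Ideal.span {θ} ≠ ⊥ := by
    rw [Ne, Ideal.span_singleton_eq_bot]
    exact hθ0
  have hfin : Finite (𝓞 K ⧸ Ideal.span {θ}) := Ideal.finiteQuotientOfFreeOfNeBot _ hbot
  have hinj : Function.Injective (fun x : 𝓞 K ⧸ Ideal.span {θ} => x ^ 3) := by
    intro x y hxy
    obtain ⟨x, rfl⟩ := Ideal.Quotient.mk_surjective x
    obtain ⟨y, rfl⟩ := Ideal.Quotient.mk_surjective y
    have hxy' : Ideal.Quotient.mk (Ideal.span {θ}) x ^ 3 =
        Ideal.Quotient.mk (Ideal.span {θ}) y ^ 3 := hxy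
    rw [← map_pow, ← map_pow, Ideal.Quotient.mk_eq_mk_iff_sub_mem,
      Ideal.mem_span_singleton] at hxy'
    rw [Ideal.Quotient.mk_eq_mk_iff_sub_mem, Ideal.mem_span_singleton]
    apply theta_dvd θ hθ0 hunr
    intro v hv
    have h1 : (x - y) ^ 3 ∈ v.asIdeal := by
      have h2 : (x - y) ^ 3 = (x ^ 3 - y ^ 3) + θ * (θ * (x * y * (x - y))) := by
        linear_combination (-(x * y * (x - y))) * hθ
      rw [h2]
      refine v.asIdeal.add_mem ?_ (v.asIdeal.mul_mem_right _ hv)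
      obtain ⟨k, hk⟩ := hxy'
      rw [hk]
      exact v.asIdeal.mul_mem_right _ hv
    exact v.isPrime.mem_of_pow_mem 3 h1
  obtain ⟨b, hb⟩ := (Finite.injective_iff_surjective.1 hinj) (Ideal.Quotient.mk _ A)
  obtain ⟨α, rfl⟩ := Ideal.Quotient.mk_surjective b
  have hb' : Ideal.Quotient.mk (Ideal.span {θ}) α ^ 3 = Ideal.Quotient.mk (Ideal.span {θ}) A := hb
  rw [← map_pow, eq_comm, Ideal.Quotient.mk_eq_mk_iff_sub_mem, Ideal.mem_span_singleton] at hb'
  obtain ⟨t, ht⟩ := hb'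
  exact ⟨α, t, by linear_combination ht⟩

/-- If C_A is soluble at all places above 3 and A is prime to 3 then A = alpha^3 (1 + theta s)
modulo 3 with s^3 = (1 + e) s modulo theta. -/
theorem glob3 (θ : 𝓞 K) (hθ : θ ^ 2 = -3)
    (hunr : ∀ v : HeightOneSpectrum (𝓞 K), θ ∉ v.asIdeal ^ 2) (n c e : 𝓞 K)
    (hn : 3 * θ ∣ n - c ^ 3 * (1 + 3 * e)) (hn3 : IsCoprime n 3) (A : 𝓞 K) (hA : IsCoprime A 3)
    (h : ∀ v : HeightOneSpectrum (𝓞 K), (3 : 𝓞 K) ∈ v.asIdeal →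
      HasPoint (algebraMap K (v.adicCompletion K) (algebraMap (𝓞 K) K n))
        (algebraMap K (v.adicCompletion K) (algebraMap (𝓞 K) K A))) :
    ∃ α s : 𝓞 K, 3 ∣ A - α ^ 3 * (1 + θ * s) ∧ θ ∣ s ^ 3 - (1 + e) * s := by
  have hθ0 : θ ≠ 0 := by
    rintro rfl
    rw [zero_pow two_ne_zero] at hθ
    have h3 : (3 : 𝓞 K) = 0 := by linear_combination hθ
    have h4 := congrArg (algebraMap (𝓞 K) K) h3
    rw [map_ofNat, map_zero] at h4
    exact three_ne_zero h4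
  have hθ3 : θ ∣ 3 := ⟨-θ, by linear_combination hθ⟩
  obtain ⟨α, t, hαt⟩ := frob_theta θ hθ hunr A
  have hcop : IsCoprime α 3 := by
    have h1 : IsCoprime A θ := hA.of_isCoprime_of_dvd_right hθ3
    rw [hαt, IsCoprime.add_mul_left_left_iff] at h1
    have h2 : IsCoprime α θ := (IsCoprime.pow_left_iff (by norm_num)).1 h1
    have h3 : IsCoprime α (θ ^ 2) := h2.pow_right
    rw [hθ] at h3
    exact IsCoprime.neg_right_iff _ _ |>.1 h3
  obtain ⟨a, b, hab⟩ := hcop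
  refine ⟨α, a ^ 3 * t, ?_, ?_⟩
  · refine ⟨θ * t * b * (1 + a * α + (a * α) ^ 2), ?_⟩
    rw [hαt]
    linear_combination (-θ * t * (1 + a * α + (a * α) ^ 2)) * hab
  · apply theta_dvd θ hθ0 hunr
    intro v hv
    have h3 : (3 : 𝓞 K) ∈ v.asIdeal := by
      obtain ⟨k, hk⟩ := hθ3
      rw [hk]
      exact v.asIdeal.mul_mem_right _ hv
    have hnotmem : ∀ r : 𝓞 K, IsCoprime r 3 → r ∉ v.asIdeal := by
      rintro r ⟨x, y, hxy⟩ hr
      apply v.isPrime.ne_top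
      rw [Ideal.eq_top_iff_one, ← hxy]
      exact v.asIdeal.add_mem (v.asIdeal.mul_mem_left _ hr) (v.asIdeal.mul_mem_left _ h3)
    have hc : c ∉ v.asIdeal := by
      intro hc
      apply hnotmem n hn3
      obtain ⟨k, hk⟩ := hn
      have h4 : n = c * (c ^ 2 * (1 + 3 * e)) + 3 * (θ * k) := by linear_combination hk
      rw [h4]
      exact v.asIdeal.add_mem (v.asIdeal.mul_mem_right _ hc) (v.asIdeal.mul_mem_right _ h3)
    have hdisj := above_three v θ hθ (val_theta v θ hv (hunr v)) n c e hn hc A α t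
      (hnotmem A hA) hαt (h v h3)
    have haα : (a * α) ^ 6 - 1 ∈ v.asIdeal := by
      have h4 : (a * α) ^ 6 - 1 = 3 * (-b * (1 + a * α + (a * α) ^ 2 + (a * α) ^ 3 +
          (a * α) ^ 4 + (a * α) ^ 5)) := by
        linear_combination (1 + a * α + (a * α) ^ 2 + (a * α) ^ 3 +
          (a * α) ^ 4 + (a * α) ^ 5) * hab
      rw [h4]
      exact v.asIdeal.mul_mem_right _ h3
    have h5 : (a ^ 3 * t) ^ 3 - (1 + e) * (a ^ 3 * t) =
        a ^ 9 * (t * (t ^ 2 - (1 + e) * α ^ 6)) +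
          (1 + e) * t * a ^ 3 * ((a * α) ^ 6 - 1) := by ring
    rw [h5]
    refine v.asIdeal.add_mem (v.asIdeal.mul_mem_left _ ?_) (v.asIdeal.mul_mem_left _ haα)
    rcases hdisj with hd | hd
    · exact v.asIdeal.mul_mem_right _ hd
    · exact v.asIdeal.mul_mem_left _ hd

omit [NumberField K] in
/-- Two elements with the same invariant modulo theta differ by a cube modulo 3. -/
theorem cube_mod_three (θ : 𝓞 K) (hθ : θ ^ 2 = -3) {A A' α α' s s' : 𝓞 K}
    (h : 3 ∣ A - α ^ 3 * (1 + θ * s)) (h' : 3 ∣ A' - α' ^ 3 * (1 + θ * s'))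
    (hs : θ ∣ s - s') : ∃ m, 3 ∣ A * A' ^ 2 - m ^ 3 := by
  obtain ⟨k, hk⟩ := h
  obtain ⟨k', hk'⟩ := h'
  obtain ⟨l, hl⟩ := hs
  refine ⟨α * α' ^ 2 * (1 + θ * s'), ?_⟩
  have h1 : A = α ^ 3 * (1 + θ * s') + 3 * (k - α ^ 3 * l) := by
    linear_combination hk + α ^ 3 * θ * hl + α ^ 3 * l * hθ
  have h2 : A' = α' ^ 3 * (1 + θ * s') + 3 * k' := by
    linear_combination hk'
  rw [h1, h2]
  generalize k - α ^ 3 * l = k1
  generalize 1 + θ * s' = w
  refine ⟨α ^ 3 * w * (2 * α' ^ 3 * w * k' + 3 * k' ^ 2) + k1 * (α' ^ 3 * w + 3 * k') ^ 2, ?_⟩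
  ring

end Pool.Agent.MP009fd8T
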