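import Mathlib

/-!
MP_009fd8_ag (CubicTwists), leaf file: a class modulo cubes whose valuations above 3 are divisible
by 3 has a representative in the ring of integers coprime to 3.
-/

namespace Pool.Agent.MP009fd8T

open IsDedekindDomain NumberField UniqueFactorizationMonoid

/-- An ideal whose multiplicities at the primes containing `q` are divisible by 3 is a cube times an
ideal contained in no prime ideal which contains `q`. -/
theorem red3_split {R : Type*} [CommRing R] [IsDedekindDomain R] (q : R) (I : Ideal R) (hI : I ≠ ⊥)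
    (h : ∀ v : HeightOneSpectrum R, q ∈ v.asIdeal → 3 ∣ multiplicity v.asIdeal I) :
    ∃ J I' : Ideal R, J ≠ ⊥ ∧ I = J ^ 3 * I' ∧ ∀ P : Ideal R, P.IsPrime → q ∈ P → ¬ I' ≤ P := by
  classical
  set s := normalizedFactors I with hs
  set t := s.filter (fun p => q ∈ p) with ht
  set t₂ := s.filter (fun p => ¬ q ∈ p) with ht₂
  have hsum : t + t₂ = s := Multiset.filter_add_not _ s
  have hcount : ∀ p ∈ t, 3 ∣ t.count p := by
    intro p hp
    obtain ⟨hps, hqp⟩ := Multiset.mem_filter.1 hp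
    have hpr : Prime p := prime_of_normalized_factor p hps
    let v : HeightOneSpectrum R := ⟨p, Ideal.isPrime_of_prime hpr, hpr.ne_zero⟩
    have h1 := h v hqp
    have hfm : FiniteMultiplicity p I := FiniteMultiplicity.of_prime_left hpr hI
    have h2 := emultiplicity_eq_count_normalizedFactors hpr.irreducible hI
    rw [normalize_eq, hfm.emultiplicity_eq_multiplicity] at h2
    have h3 : multiplicity p I = s.count p := by exact_mod_cast h2
    have h4 : t.count p = s.count p := by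
      rw [ht, Multiset.count_filter, if_pos hqp]
    rw [h4, ← h3]
    exact h1
  obtain ⟨u, hu⟩ := Multiset.exists_smul_of_dvd_count t hcount
  have hprod : I = u.prod ^ 3 * t₂.prod := by
    rw [← Ideal.prod_normalizedFactors_eq_self hI, ← hs, ← hsum, Multiset.prod_add, hu,
      Multiset.prod_nsmul]
  refine ⟨u.prod, t₂.prod, ?_, hprod, ?_⟩
  · intro h0
    apply hI
    rw [hprod, h0]
    simp
  · intro P hP hqP hle
    obtain ⟨p, hp, hpP⟩ := (Ideal.IsPrime.multiset_prod_le hP).1 hle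
    obtain ⟨hps, hqp⟩ := Multiset.mem_filter.1 hp
    have hpr : Prime p := prime_of_normalized_factor p hps
    have hmax : p.IsMaximal := (Ideal.isPrime_of_prime hpr).isMaximal hpr.ne_zero
    have heq : p = P := hmax.eq_of_le hP.ne_top hpP
    exact hqp (heq ▸ hqP)

/-- The integral version of the reduction. -/
theorem red3_int {R : Type*} [CommRing R] [IsDedekindDomain R] (q : R) (hq : q ≠ 0)
    (hqu : ¬ IsUnit q) (x : R) (hx : x ≠ 0)
    (h : ∀ v : HeightOneSpectrum R, q ∈ v.asIdeal → 3 ∣ multiplicity v.asIdeal (Ideal.span {x})) :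
    ∃ b d A : R, b ≠ 0 ∧ d ≠ 0 ∧ IsCoprime A q ∧ x * d ^ 3 = b ^ 3 * A := by
  obtain ⟨J, I', hJ, hsplit, hI'⟩ := red3_split q (Ideal.span {x})
    (by rw [Ne, Ideal.span_singleton_eq_bot]; exact hx) h
  have hJ0 : J ≠ 0 := hJ
  have hle : Ideal.span {q} * J ≤ J := Ideal.mul_le_right
  have hne : Ideal.span {q} * J ≠ 0 :=
    mul_ne_zero (by rw [Ne, Submodule.zero_eq_bot, Ideal.span_singleton_eq_bot]; exact hq) hJ0
  obtain ⟨b, hb⟩ := IsDedekindDomain.exists_sup_span_eq hle hne
  have hb0 : b ≠ 0 := by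
    rintro rfl
    rw [show Ideal.span {(0 : R)} = ⊥ by simp, sup_bot_eq] at hb
    have h1 : J * Ideal.span {q} = J * 1 := by rw [mul_comm, hb, mul_one]
    have h2 := mul_left_cancel₀ hJ0 h1
    rw [Ideal.one_eq_top, Ideal.span_singleton_eq_top] at h2
    exact hqu h2
  have hbJ : b ∈ J := by
    rw [← hb]
    exact Ideal.mem_sup_right (Ideal.mem_span_singleton_self b)
  obtain ⟨B, hB⟩ : J ∣ Ideal.span {b} := Ideal.dvd_span_singleton.2 hbJ
  have hcop : Ideal.span {q} ⊔ B = ⊤ := by
    have h1 : J * (Ideal.span {q} ⊔ B) = J * 1 := by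
      rw [Ideal.mul_sup, ← hB, mul_comm J, hb, mul_one]
    have h2 := mul_left_cancel₀ hJ0 h1
    rw [h2, Ideal.one_eq_top]
  obtain ⟨i, hi, d, hd, hid⟩ := Submodule.mem_sup.1 ((Ideal.eq_top_iff_one _).1 hcop)
  obtain ⟨z, hz⟩ := Ideal.mem_span_singleton'.1 hi
  have hd0 : d ≠ 0 := by
    rintro rfl
    apply hqu
    rw [add_zero] at hid
    exact IsUnit.of_mul_eq_one z (by rw [mul_comm, hz, hid])
  have hdvd : b ^ 3 ∣ x * d ^ 3 := by
    rw [← Ideal.mem_span_singleton, ← Ideal.span_singleton_pow, hB, mul_pow]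
    refine Ideal.mul_mem_mul ?_ (Ideal.pow_mem_pow hd 3)
    have h1 : x ∈ J ^ 3 * I' := by
      rw [← hsplit]
      exact Ideal.mem_span_singleton_self x
    exact Ideal.mul_le_left h1
  obtain ⟨A, hA⟩ := hdvd
  refine ⟨b, d, A, hb0, hd0, ?_, hA⟩
  by_contra hnc
  have h1 : Ideal.span {A} ⊔ Ideal.span {q} ≠ ⊤ := by
    intro h2
    apply hnc
    rw [← Ideal.isCoprime_span_singleton_iff, Ideal.isCoprime_iff_sup_eq]
    exact h2
  obtain ⟨P, hP, hPle⟩ := Ideal.exists_le_maximal _ h1
  have hPp := hP.isPrime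
  have hAP : A ∈ P := hPle (Ideal.mem_sup_left (Ideal.mem_span_singleton_self A))
  have hqP : q ∈ P := hPle (Ideal.mem_sup_right (Ideal.mem_span_singleton_self q))
  have h3 : J ^ 3 * (I' * Ideal.span {d} ^ 3) = J ^ 3 * (B ^ 3 * Ideal.span {A}) := by
    have h4 : Ideal.span {x * d ^ 3} = Ideal.span {b ^ 3 * A} := by rw [hA]
    rw [← Ideal.span_singleton_mul_span_singleton, ← Ideal.span_singleton_mul_span_singleton,
      ← Ideal.span_singleton_pow, ← Ideal.span_singleton_pow, hsplit, hB, mul_pow] at h4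
    rw [← mul_assoc, h4, mul_assoc]
  have h5 := mul_left_cancel₀ (pow_ne_zero 3 hJ0) h3
  have h6 : I' * Ideal.span {d} ^ 3 ≤ P := by
    rw [h5]
    refine Ideal.mul_le_right.trans ?_
    rw [Ideal.span_singleton_le_iff_mem]
    exact hAP
  rcases hPp.mul_le.1 h6 with h7 | h7
  · exact hI' P hPp hqP h7
  · have h8 : d ∈ P := by
      have h9 : d ^ 3 ∈ P := h7 (Ideal.pow_mem_pow (Ideal.mem_span_singleton_self d) 3)
      exact hPp.mem_of_pow_mem 3 h9
    apply hPp.ne_top
    rw [Ideal.eq_top_iff_one, ← hid, ← hz]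
    exact P.add_mem (P.mul_mem_left _ hqP) h8

/-- `exp (-m)` is a cube only for `m` divisible by 3. -/
theorem red3_dvd_of_exp {m : ℕ} (h : ∃ s : WithZero (Multiplicative ℤ),
    WithZero.exp (-(m : ℤ)) = s ^ 3) : 3 ∣ m := by
  obtain ⟨y, hy⟩ := h
  have hy0 : y ≠ 0 := by
    rintro rfl
    rw [zero_pow three_ne_zero] at hy
    exact WithZero.exp_ne_zero hy
  obtain ⟨k, hk⟩ : ∃ k : ℤ, y = WithZero.exp k := ⟨WithZero.log y, (WithZero.exp_log hy0).symm⟩
  rw [hk, ← WithZero.exp_nsmul, WithZero.exp_inj] at hy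
  have : (3 : ℤ) ∣ (m : ℤ) := ⟨-k, by simp only [nsmul_eq_mul] at hy; push_cast at hy; linarith⟩
  exact_mod_cast this

/-- Proof. Write a = x / y with x, y integral and replace a by x y^2 = a y^3: so a = x is in 𝓞 K,
nonzero. Let s be the multiset of normalizedFactors of span {x}; the sub-multiset t of the factors
containing 3 has all its counts divisible by 3 (intValuation_eq_exp_neg_multiplicity and the
hypothesis, as in ClassLemma.lean of MP_009fd8_ag, exists_unit_mul_sq), so t = 3 • t'. So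
span {x} = J^3 * I, J = t'.prod, I a product of primes not containing 3. By
IsDedekindDomain.exists_sup_span_eq (with 3 J <= J) there is b with span {3} * J ⊔ span {b} = J;
J divides span {b}, say span {b} = J * B, and cancelling J: span {3} ⊔ B = ⊤, so there are d in B and
z with d + 3 z = 1. (b is nonzero because 3 is not a unit of 𝓞 K; or replace b by another element if
b = 0: in that case J = 3 J.) Then span {x d^3} <= J^3 B^3 = span {b^3}, so x d^3 = b^3 A. A is coprime
to 3: if a prime v contains 3 and A then, from span {A} * B^3 = I * span {d}^3 (cancel J^3), v contains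
I or d; the first is impossible (I is a product of primes not containing 3) and the second too
(d + 3 z = 1). Take r = d / b * y (times the first reduction). -/
theorem exists_coprime_three {K : Type*} [Field K] [NumberField K] (a : K) (ha : a ≠ 0)
    (h : ∀ v : HeightOneSpectrum (𝓞 K), (3 : 𝓞 K) ∈ v.asIdeal →
      ∃ s, v.valuation K a = s ^ 3) :
    ∃ (r : K) (A : 𝓞 K), r ≠ 0 ∧ IsCoprime A 3 ∧ algebraMap (𝓞 K) K A = a * r ^ 3 := by
  obtain ⟨n, e, he, hane⟩ := IsFractionRing.div_surjective (A := 𝓞 K) a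
  have he0 : e ≠ 0 := nonZeroDivisors.ne_zero he
  have heK : algebraMap (𝓞 K) K e ≠ 0 := by simpa using he0
  have hn0 : n ≠ 0 := by
    rintro rfl
    apply ha
    rw [← hane]; simp
  set x : 𝓞 K := n * e ^ 2 with hx
  have hx0 : x ≠ 0 := mul_ne_zero hn0 (pow_ne_zero 2 he0)
  have hxa : algebraMap (𝓞 K) K x = a * (algebraMap (𝓞 K) K e) ^ 3 := by
    rw [hx, map_mul, map_pow, ← hane]
    field_simp
  by_cases hu : IsUnit (3 : 𝓞 K)
  · refine ⟨algebraMap (𝓞 K) K e, x, heK, ?_, hxa⟩
    obtain ⟨u, hu⟩ := hu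
    exact ⟨0, ((u⁻¹ : (𝓞 K)ˣ) : 𝓞 K), by rw [zero_mul, zero_add, ← hu, Units.inv_mul]⟩
  · have h3 : (3 : 𝓞 K) ≠ 0 := by exact_mod_cast (three_ne_zero : (3 : ℕ) ≠ 0)
    have hdvd : ∀ v : HeightOneSpectrum (𝓞 K), (3 : 𝓞 K) ∈ v.asIdeal →
        3 ∣ multiplicity v.asIdeal (Ideal.span {x}) := by
      intro v hv
      obtain ⟨s, hs⟩ := h v hv
      apply red3_dvd_of_exp
      refine ⟨s * v.valuation K (algebraMap (𝓞 K) K e), ?_⟩
      have e0 : v.valuation K (algebraMap (𝓞 K) K x) = v.intValuation x :=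
        v.valuation_of_algebraMap x
      rw [← v.intValuation_eq_exp_neg_multiplicity hx0, ← e0, hxa, map_mul, map_pow, hs, mul_pow]
    obtain ⟨b, d, A, hb, hd, hcop, hA⟩ := red3_int (3 : 𝓞 K) h3 hu x hx0 hdvd
    have hbK : algebraMap (𝓞 K) K b ≠ 0 := by simpa using hb
    have hdK : algebraMap (𝓞 K) K d ≠ 0 := by simpa using hd
    refine ⟨algebraMap (𝓞 K) K e * algebraMap (𝓞 K) K d / algebraMap (𝓞 K) K b, A,
      div_ne_zero (mul_ne_zero heK hdK) hbK, hcop, ?_⟩
    have h1 : algebraMap (𝓞 K) K x * algebraMap (𝓞 K) K d ^ 3 =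
        algebraMap (𝓞 K) K b ^ 3 * algebraMap (𝓞 K) K A := by
      rw [← map_pow, ← map_mul, hA, map_mul, map_pow]
    rw [hxa] at h1
    rw [div_pow, mul_pow, ← mul_div_assoc, eq_div_iff (pow_ne_zero 3 hbK), mul_comm, ← h1]
    ring

end Pool.Agent.MP009fd8T
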