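import Pool.Agent.Lib.MP_009fd8_agT.Away
import Pool.Agent.Lib.MP_009fd8_agT.Bad3
import Pool.Agent.Lib.MP_009fd8_agT.Glob3
import Pool.Agent.Lib.MP_009fd8_agT.Red3
import Pool.Agent.Lib.MP_009fd8_agT.Class

/-!
MP_009fd8_ag, p = 3: the main theorem (pigeonhole) and the criterion for the strict Selmer group.
-/

namespace Pool.Agent.MP009fd8T

open IsDedekindDomain NumberField WithZero

variable {K : Type*} [Field K] [NumberField K]

/-- The strict Selmer conditions for an integer `A` of `K` coprime to 3: `3 ∣ v(A)` at all places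
where `3 ∣ v(n)`; `A` is, up to a power of `n` and a factor `1 + m` with `v(m) > 0`, a cube at the
other places; `A` is a cube modulo 3. -/
structure StrictSelmer (n A : 𝓞 K) : Prop where
  coprime : IsCoprime A 3
  good : ∀ v : HeightOneSpectrum (𝓞 K), (∃ w, v.valuation K (algebraMap (𝓞 K) K n) = w ^ 3) →
    ∃ w, v.valuation K (algebraMap (𝓞 K) K A) = w ^ 3
  bad : ∀ v : HeightOneSpectrum (𝓞 K), (¬ ∃ w, v.valuation K (algebraMap (𝓞 K) K n) = w ^ 3) →
    ∃ j : ℕ, NearCube (v.valuation K) (algebraMap (𝓞 K) K A * algebraMap (𝓞 K) K n ^ j)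
  three : ∃ m : 𝓞 K, 3 ∣ A - m ^ 3

/-- the strict Selmer conditions for the comparison of two locally soluble classes -/
theorem strictSelmer_of_same {θ n A A' α α' s s' : 𝓞 K} (hθ : θ ^ 2 = -3) (hn0 : n ≠ 0)
    (hA0 : A ≠ 0) (hA0' : A' ≠ 0) (hA : IsCoprime A 3) (hA' : IsCoprime A' 3)
    (hl : LocallySoluble K (algebraMap (𝓞 K) K n) (algebraMap (𝓞 K) K A))
    (hl' : LocallySoluble K (algebraMap (𝓞 K) K n) (algebraMap (𝓞 K) K A'))
    (h : 3 ∣ A - α ^ 3 * (1 + θ * s)) (h' : 3 ∣ A' - α' ^ 3 * (1 + θ * s')) (hs : θ ∣ s - s') :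
    StrictSelmer n (A * A' ^ 2) := by
  have hnK : algebraMap (𝓞 K) K n ≠ 0 := by simpa using hn0
  have hAK : algebraMap (𝓞 K) K A ≠ 0 := by simpa using hA0
  have hAK' : algebraMap (𝓞 K) K A' ≠ 0 := by simpa using hA0'
  refine ⟨hA.mul_left hA'.pow_left, ?_, ?_, cube_mod_three θ hθ h h' hs⟩
  · intro v hv
    have key : ∀ B : K, B ≠ 0 → LocallySoluble K (algebraMap (𝓞 K) K n) B →
        ∃ w, v.valuation K B = w ^ 3 := by
      intro B hB hlB
      obtain ⟨w, hw⟩ := cube_away (Valued.v : Valuation (v.adicCompletion K) _)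
        (algebraMap K (v.adicCompletion K) (algebraMap (𝓞 K) K n))
        (algebraMap K (v.adicCompletion K) B) ((map_ne_zero _).2 hB) ((map_ne_zero _).2 hnK)
        (by rw [MP009fd8.val_completion]; exact hv) (hlB v)
      rw [MP009fd8.val_completion] at hw
      exact ⟨w, hw⟩
    obtain ⟨w, hw⟩ := key _ hAK hl
    obtain ⟨w', hw'⟩ := key _ hAK' hl'
    refine ⟨w * w' ^ 2, ?_⟩
    rw [map_mul, map_pow, map_mul, map_pow, hw, hw', mul_pow, ← pow_mul, ← pow_mul]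
  · intro v hv
    obtain ⟨j, hj⟩ := nearCube_bad v hnK hAK hv (hl v)
    obtain ⟨j', hj'⟩ := nearCube_bad v hnK hAK' hv (hl' v)
    refine ⟨j + 2 * j', ?_⟩
    have e : algebraMap (𝓞 K) K (A * A' ^ 2) * algebraMap (𝓞 K) K n ^ (j + 2 * j') =
        (algebraMap (𝓞 K) K A * algebraMap (𝓞 K) K n ^ j) *
          ((algebraMap (𝓞 K) K A' * algebraMap (𝓞 K) K n ^ j') *
          (algebraMap (𝓞 K) K A' * algebraMap (𝓞 K) K n ^ j')) := by
      rw [map_mul, map_pow]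
      ring
    rw [e]
    exact hj.mul (hj'.mul hj')

/-- reduction of a locally soluble class to an integer coprime to 3 -/
theorem exists_data {θ n c e : 𝓞 K} (hθ : θ ^ 2 = -3)
    (hunr : ∀ v : HeightOneSpectrum (𝓞 K), θ ∉ v.asIdeal ^ 2) (hn0 : n ≠ 0)
    (hn : 3 * θ ∣ n - c ^ 3 * (1 + 3 * e)) (hn3 : IsCoprime n 3) {a : K} (ha : a ≠ 0)
    (hl : LocallySoluble K (algebraMap (𝓞 K) K n) a) :
    ∃ (r : K) (A α s : 𝓞 K), r ≠ 0 ∧ IsCoprime A 3 ∧ algebraMap (𝓞 K) K A = a * r ^ 3 ∧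
      LocallySoluble K (algebraMap (𝓞 K) K n) (algebraMap (𝓞 K) K A) ∧
      3 ∣ A - α ^ 3 * (1 + θ * s) ∧ θ ∣ s ^ 3 - (1 + e) * s := by
  have hnK : algebraMap (𝓞 K) K n ≠ 0 := by simpa using hn0
  obtain ⟨r, A, hr, hA, hAr⟩ := exists_coprime_three a ha (fun v hv => by
    have hvn : v.valuation K (algebraMap (𝓞 K) K n) = 1 := by
      apply MP009fd8.val_eq_one
      intro hmem
      obtain ⟨x, y, hxy⟩ := hn3
      apply v.isPrime.ne_top
      rw [Ideal.eq_top_iff_one, ← hxy]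
      exact v.asIdeal.add_mem (v.asIdeal.mul_mem_left _ hmem) (v.asIdeal.mul_mem_left _ hv)
    obtain ⟨w, hw⟩ := cube_away (Valued.v : Valuation (v.adicCompletion K) _)
      (algebraMap K (v.adicCompletion K) (algebraMap (𝓞 K) K n))
      (algebraMap K (v.adicCompletion K) a) ((map_ne_zero _).2 ha) ((map_ne_zero _).2 hnK)
      (by rw [MP009fd8.val_completion, hvn]; exact ⟨1, by simp⟩) (hl v)
    rw [MP009fd8.val_completion] at hw
    exact ⟨w, hw⟩)
  have hlA : LocallySoluble K (algebraMap (𝓞 K) K n) (algebraMap (𝓞 K) K A) := by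
    apply LocallySoluble.of_sameClass hnK ha ⟨0, r, hr, by rw [hAr]; ring⟩ hl
  obtain ⟨α, s, h1, h2⟩ := glob3 θ hθ hunr n c e hn hn3 A hA (fun v _ => hlA v)
  exact ⟨r, A, α, s, hr, hA, hAr, hlA, h1, h2⟩

/-- two locally soluble classes with the same invariant modulo `θ` are equal -/
theorem sameClass_of_same {θ n : 𝓞 K} (hθ : θ ^ 2 = -3) (hn0 : n ≠ 0)
    (hS : ∀ A : 𝓞 K, A ≠ 0 → StrictSelmer n A →
      SameClass (algebraMap (𝓞 K) K n) (algebraMap (𝓞 K) K A) 1)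
    {a a' r r' : K} {A A' α α' s s' : 𝓞 K} (ha : a ≠ 0) (ha' : a' ≠ 0) (hr : r ≠ 0) (hr' : r' ≠ 0)
    (hA : IsCoprime A 3) (hA' : IsCoprime A' 3)
    (hAr : algebraMap (𝓞 K) K A = a * r ^ 3) (hAr' : algebraMap (𝓞 K) K A' = a' * r' ^ 3)
    (hl : LocallySoluble K (algebraMap (𝓞 K) K n) (algebraMap (𝓞 K) K A))
    (hl' : LocallySoluble K (algebraMap (𝓞 K) K n) (algebraMap (𝓞 K) K A'))
    (h : 3 ∣ A - α ^ 3 * (1 + θ * s)) (h' : 3 ∣ A' - α' ^ 3 * (1 + θ * s')) (hs : θ ∣ s - s') :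
    SameClass (algebraMap (𝓞 K) K n) a a' := by
  have hA0 : A ≠ 0 := by
    rintro rfl
    rw [map_zero] at hAr
    exact mul_ne_zero ha (pow_ne_zero 3 hr) hAr.symm
  have hA0' : A' ≠ 0 := by
    rintro rfl
    rw [map_zero] at hAr'
    exact mul_ne_zero ha' (pow_ne_zero 3 hr') hAr'.symm
  obtain ⟨j, t, ht, e⟩ := hS (A * A' ^ 2) (mul_ne_zero hA0 (pow_ne_zero 2 hA0'))
    (strictSelmer_of_same hθ hn0 hA0 hA0' hA hA' hl hl' h h' hs)
  rw [map_mul, map_pow, hAr, hAr'] at e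
  refine ⟨j, t / (r * r' ^ 2 * a'), div_ne_zero ht (mul_ne_zero (mul_ne_zero hr
    (pow_ne_zero 2 hr')) ha'), ?_⟩
  field_simp
  linear_combination e

/-- The main theorem: if the strict Selmer group is generated by `n` and there are as many
inequivalent rational classes as local possibilities above 3, then every locally soluble class is
rational. -/
theorem main1 {θ n c e : 𝓞 K} (hθ : θ ^ 2 = -3)
    (hunr : ∀ v : HeightOneSpectrum (𝓞 K), θ ∉ v.asIdeal ^ 2) (hn0 : n ≠ 0)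
    (hn : 3 * θ ∣ n - c ^ 3 * (1 + 3 * e)) (hn3 : IsCoprime n 3)
    (hS : ∀ A : 𝓞 K, A ≠ 0 → StrictSelmer n A →
      SameClass (algebraMap (𝓞 K) K n) (algebraMap (𝓞 K) K A) 1)
    (P : Finset K) (hP0 : ∀ p ∈ P, p ≠ 0)
    (hPpt : ∀ p ∈ P, HasPoint (algebraMap (𝓞 K) K n) p)
    (hPne : ∀ p ∈ P, ∀ p' ∈ P, SameClass (algebraMap (𝓞 K) K n) p p' → p = p')
    (hcard : Nat.card {s : 𝓞 K ⧸ Ideal.span {θ} //
      s ^ 3 = (1 + Ideal.Quotient.mk _ e) * s} ≤ P.card)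
    {a : K} (ha : a ≠ 0) (hl : LocallySoluble K (algebraMap (𝓞 K) K n) a) :
    ∃ p ∈ P, SameClass (algebraMap (𝓞 K) K n) a p := by
  classical
  have hθ0 : θ ≠ 0 := by
    rintro rfl
    rw [zero_pow two_ne_zero] at hθ
    have h30 : (3 : 𝓞 K) = 0 := by linear_combination hθ
    exact (OfNat.ofNat_ne_zero 3 : (3 : 𝓞 K) ≠ 0) h30
  have hfin : Finite (𝓞 K ⧸ Ideal.span {θ}) :=
    Ideal.finiteQuotientOfFreeOfNeBot _ (by simpa using hθ0)
  -- the data of the elements of P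
  have hdata : ∀ p : P, ∃ (r : K) (A α s : 𝓞 K), r ≠ 0 ∧ IsCoprime A 3 ∧
      algebraMap (𝓞 K) K A = p * r ^ 3 ∧
      LocallySoluble K (algebraMap (𝓞 K) K n) (algebraMap (𝓞 K) K A) ∧
      3 ∣ A - α ^ 3 * (1 + θ * s) ∧ θ ∣ s ^ 3 - (1 + e) * s := fun p =>
    exists_data hθ hunr hn0 hn hn3 (hP0 p p.2) (hPpt p p.2).locallySoluble
  choose r A α s hr hA hAr hlA h1 h2 using hdata
  have hV : ∀ x : 𝓞 K, θ ∣ x ^ 3 - (1 + e) * x → (Ideal.Quotient.mk (Ideal.span {θ}) x) ^ 3 =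
      (1 + Ideal.Quotient.mk _ e) * Ideal.Quotient.mk (Ideal.span {θ}) x := by
    intro x hx
    rw [← Ideal.mem_span_singleton, ← Ideal.Quotient.eq_zero_iff_mem] at hx
    rw [← sub_eq_zero, ← hx]
    simp only [map_sub, map_mul, map_pow, map_add, map_one]
  let f : P → {s : 𝓞 K ⧸ Ideal.span {θ} // s ^ 3 = (1 + Ideal.Quotient.mk _ e) * s} :=
    fun p => ⟨Ideal.Quotient.mk _ (s p), hV _ (h2 p)⟩
  have hdvd : ∀ x y : 𝓞 K, Ideal.Quotient.mk (Ideal.span {θ}) x = Ideal.Quotient.mk _ y →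
      θ ∣ x - y := by
    intro x y hxy
    rw [← Ideal.mem_span_singleton]
    exact Ideal.Quotient.eq.1 hxy
  have hinj : Function.Injective f := by
    intro p p' hpp
    have h3 := congrArg Subtype.val hpp
    have h4 := sameClass_of_same hθ hn0 hS (hP0 p p.2) (hP0 p' p'.2) (hr p) (hr p') (hA p) (hA p')
      (hAr p) (hAr p') (hlA p) (hlA p') (h1 p) (h1 p') (hdvd _ _ h3)
    exact Subtype.ext (hPne p p.2 p' p'.2 h4)
  have hbij : Function.Bijective f := by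
    apply hinj.bijective_of_nat_card_le
    rw [Nat.card_eq_fintype_card (α := P), Fintype.card_coe]
    exact hcard
  obtain ⟨r', A', α', s', hr', hA', hAr', hlA', h1', h2'⟩ :=
    exists_data hθ hunr hn0 hn hn3 ha hl
  obtain ⟨p, hp⟩ := hbij.2 ⟨Ideal.Quotient.mk _ s', hV _ h2'⟩
  have h3 := congrArg Subtype.val hp
  refine ⟨p, p.2, sameClass_of_same hθ hn0 hS ha (hP0 p p.2) hr' (hr p) hA' (hA p)
    hAr' (hAr p) hlA' (hlA p) h1' (h1 p) (hdvd _ _ h3.symm)⟩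

end Pool.Agent.MP009fd8T
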